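import Mathlib
set_option autoImplicit false

open MeasureTheory Set Metric Filter
open scoped Convolution ContDiff Topology

namespace Pool.Agent.Helper33.WBV

section
variable {n : ℕ}

/-- The determinant of the `k × k` submatrix with rows `I` and columns `J`. -/
noncomputable def minor {k : ℕ} (I J : Fin k → Fin n) (A : Fin n → Fin n → ℝ) : ℝ :=
  Matrix.det ((Matrix.of A).submatrix I J)

/-- The generalized cross product of the rows `I` of the matrix, restricted to the columns `J`. -/
noncomputable def W {k : ℕ} (I : Fin k → Fin n) (J : Fin (k + 1) → Fin n) (l : Fin n)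
    (A : Fin n → Fin n → ℝ) : ℝ :=
  ∑ j : Fin (k + 1), if J j = l then (-1) ^ (j : ℕ) * minor I (J ∘ j.succAbove) A else 0

lemma minor_contDiff {k : ℕ} (I J : Fin k → Fin n) : ContDiff ℝ ∞ (minor I J) := by
  unfold minor
  simp only [Matrix.det_apply]
  refine ContDiff.sum fun σ _ => ?_
  refine ContDiff.const_smul _ ?_
  refine contDiff_prod fun i _ => ?_
  simp only [Matrix.submatrix_apply, Matrix.of_apply]
  exact contDiff_apply_apply ℝ ℝ _ _

lemma W_contDiff {k : ℕ} (I : Fin k → Fin n) (J : Fin (k + 1) → Fin n) (l : Fin n) :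
    ContDiff ℝ ∞ (W I J l) := by
  unfold W
  refine ContDiff.sum fun j _ => ?_
  split_ifs
  · exact contDiff_const.mul (minor_contDiff _ _)
  · exact contDiff_const

lemma sum_W_mul {k : ℕ} (I : Fin k → Fin n) (J : Fin (k + 1) → Fin n)
    (A : Fin n → Fin n → ℝ) (i : Fin n) :
    ∑ l, W I J l A * A i l = minor (Fin.cons i I) J A := by
  unfold W
  simp_rw [Finset.sum_mul]
  rw [Finset.sum_comm]
  unfold minor
  rw [Matrix.det_succ_row_zero]
  refine Finset.sum_congr rfl fun j _ => ?_
  simp only [ite_mul, zero_mul]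
  rw [Finset.sum_ite_eq]
  simp only [Finset.mem_univ, if_true, Matrix.submatrix_apply, Fin.cons_zero, Matrix.of_apply]
  have : ((Matrix.of A).submatrix (Fin.cons i I : Fin (k+1) → Fin n) J).submatrix Fin.succ
      j.succAbove = (Matrix.of A).submatrix I (J ∘ j.succAbove) := by
    ext a b
    simp
  rw [this]
  ring

lemma W_apply_zero {k : ℕ} (I : Fin k → Fin n) (J : Fin k → Fin n) (j₀ : Fin n)
    (hj : ∀ a, J a ≠ j₀) (A : Fin n → Fin n → ℝ) :
    W I (Fin.cons j₀ J) j₀ A = minor I J A := by
  unfold W
  rw [Fin.sum_univ_succ]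
  simp only [Fin.cons_zero, if_true, Fin.val_zero, pow_zero, one_mul]
  have h1 : ∀ a : Fin k, (if (Fin.cons j₀ J : Fin (k+1) → Fin n) a.succ = j₀ then
      (-1 : ℝ) ^ ((a.succ : Fin (k+1)) : ℕ) *
        minor I ((Fin.cons j₀ J : Fin (k+1) → Fin n) ∘ a.succ.succAbove) A else 0) = 0 := by
    intro a
    rw [if_neg]
    simpa using hj a
  rw [Finset.sum_eq_zero (fun a _ => h1 a), add_zero]
  congr 1

/-- If a matrix has zero determinant then all its full-size minors vanish. -/
lemma minor_eq_zero_of_det {I J : Fin n → Fin n} {A : Fin n → Fin n → ℝ}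
    (h : Matrix.det (Matrix.of A) = 0) : minor I J A = 0 := by
  unfold minor
  by_cases hI : Function.Injective I
  · by_cases hJ : Function.Injective J
    · have hI' : Function.Bijective I := Finite.injective_iff_bijective.1 hI
      have hJ' : Function.Bijective J := Finite.injective_iff_bijective.1 hJ
      let σ : Fin n ≃ Fin n := Equiv.ofBijective I hI'
      let τ : Fin n ≃ Fin n := Equiv.ofBijective J hJ'
      have : (Matrix.of A).submatrix I J = ((Matrix.of A).submatrix σ id).submatrix id τ := by
        ext a b; rfl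
      rw [this, Matrix.det_permute', Matrix.det_permute, h]
      simp
    · have : ∃ a b, J a = J b ∧ a ≠ b := by
        simpa [Function.Injective] using hJ
      obtain ⟨a, b, hab, hne⟩ := this
      exact Matrix.det_zero_of_column_eq hne fun i => by simp [hab]
  · have : ∃ a b, I a = I b ∧ a ≠ b := by
      simpa [Function.Injective] using hI
    obtain ⟨a, b, hab, hne⟩ := this
    exact Matrix.det_zero_of_row_eq hne (by ext i; simp [hab])

/-- Selection of the essential rank: if the determinant vanishes a.e. then there is `k < n` such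
that some `k`-minor is not a.e. zero, but all `(k+1)`-minors are a.e. zero. -/
lemma exists_ess_rank {α : Type*} [MeasurableSpace α] {ν : Measure α} (hν : ν ≠ 0)
    (A : α → Fin n → Fin n → ℝ) (hdet : ∀ᵐ x ∂ν, Matrix.det (Matrix.of (A x)) = 0) :
    ∃ k : ℕ, k < n ∧ (∃ I J : Fin k → Fin n, ¬ ∀ᵐ x ∂ν, minor I J (A x) = 0) ∧
      ∀ I J : Fin (k + 1) → Fin n, ∀ᵐ x ∂ν, minor I J (A x) = 0 := by
  classical
  let P : ℕ → Prop := fun m => ∀ I J : Fin m → Fin n, ∀ᵐ x ∂ν, minor I J (A x) = 0
  have hPn : P n := fun I J => by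
    filter_upwards [hdet] with x hx using minor_eq_zero_of_det hx
  have hex : ∃ m, P m := ⟨n, hPn⟩
  have h0 : ¬ P 0 := by
    intro h
    have h1 := h Fin.elim0 Fin.elim0
    have h2 : ∀ᵐ x ∂ν, False := by
      filter_upwards [h1] with x hx
      simp [minor] at hx
    rw [ae_iff] at h2
    simp at h2
    exact hν h2
  have hm := Nat.find_spec hex
  have hmn : Nat.find hex ≤ n := Nat.find_le hPn
  have hm0 : Nat.find hex ≠ 0 := by
    intro h
    rw [h] at hm
    exact h0 hm
  obtain ⟨k, hk⟩ := Nat.exists_eq_succ_of_ne_zero hm0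
  refine ⟨k, by omega, ?_, ?_⟩
  · have := Nat.find_min hex (m := k) (by omega)
    simp only [P, not_forall] at this
    obtain ⟨I, J, h⟩ := this
    exact ⟨I, J, h⟩
  · rw [hk] at hm
    exact hm

lemma exists_not_mem_range {k : ℕ} (hk : k < n) (J : Fin k → Fin n) : ∃ j₀, ∀ a, J a ≠ j₀ := by
  by_contra h
  push Not at h
  have hs : Function.Surjective J := fun j => h j
  have := Fintype.card_le_of_surjective J hs
  simp at this
  omega

end

end Pool.Agent.Helper33.WBV
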