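import Mathlib

set_option autoImplicit false

open MeasureTheory Set Metric Filter
open scoped Convolution ContDiff Topology

namespace Pool.Agent.Helper33.WBV

section
variable {E : Type*} [NormedAddCommGroup E] [NormedSpace ℝ E] [FiniteDimensional ℝ E]
  [MeasureSpace E] [BorelSpace E] [(volume : Measure E).IsAddHaarMeasure]

/-- The mollification of `u` with the bump function `φ`. -/
noncomputable def moll (φ : ContDiffBump (0 : E)) (u : E → ℝ) : E → ℝ :=
  (φ.normed volume) ⋆[ContinuousLinearMap.lsmul ℝ ℝ, volume] u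

/-- The translated kernel. -/
noncomputable def ker (φ : ContDiffBump (0 : E)) (x : E) : E → ℝ :=
  fun y => φ.normed volume (x - y)

lemma ker_contDiff (φ : ContDiffBump (0 : E)) (x : E) : ContDiff ℝ ∞ (ker φ x) := by
  unfold ker
  exact (φ.contDiff_normed (n := ⊤)).comp (contDiff_const.sub contDiff_id)

lemma ker_nonneg (φ : ContDiffBump (0 : E)) (x y : E) : 0 ≤ ker φ x y := φ.nonneg_normed _

lemma ker_hasCompactSupport (φ : ContDiffBump (0 : E)) (x : E) :
    HasCompactSupport (ker φ x) := by
  unfold ker
  exact (φ.hasCompactSupport_normed (μ := volume)).comp_homeomorph (Homeomorph.subLeft x)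

lemma ker_support_subset (φ : ContDiffBump (0 : E)) (x : E) :
    Function.support (ker φ x) ⊆ ball x φ.rOut := by
  intro y hy
  have : x - y ∈ Function.support (φ.normed (volume : Measure E)) := hy
  rw [φ.support_normed_eq] at this
  simpa [mem_ball, dist_eq_norm, norm_sub_rev] using this

lemma ker_tsupport_subset (φ : ContDiffBump (0 : E)) (x : E) :
    tsupport (ker φ x) ⊆ closedBall x φ.rOut :=
  closure_minimal ((ker_support_subset φ x).trans ball_subset_closedBall) isClosed_closedBall

lemma ker_zero_of_notMem (φ : ContDiffBump (0 : E)) {x y : E} (h : y ∉ closedBall x φ.rOut) :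
    ker φ x y = 0 := by
  by_contra hne
  exact h (ball_subset_closedBall (ker_support_subset φ x hne))

lemma moll_contDiff (φ : ContDiffBump (0 : E)) {u : E → ℝ} (hu : LocallyIntegrable u volume) :
    ContDiff ℝ ∞ (moll φ u) :=
  (φ.hasCompactSupport_normed (μ := volume)).contDiff_convolution_left _
    (φ.contDiff_normed (n := ⊤)) hu

lemma moll_apply (φ : ContDiffBump (0 : E)) (u : E → ℝ) (x : E) :
    moll φ u x = ∫ y, ker φ x y * u y := by
  unfold moll ker
  rw [convolution_eq_swap]
  simp

lemma fderiv_ker (φ : ContDiffBump (0 : E)) (x y v : E) :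
    fderiv ℝ (ker φ x) y v = - fderiv ℝ (φ.normed volume) (x - y) v := by
  have h1 : DifferentiableAt ℝ (φ.normed (volume : Measure E)) (x - y) :=
    ((φ.contDiff_normed (μ := volume) (n := ⊤)).differentiable (by simp)) _
  have h2 : HasFDerivAt (fun y : E => x - y) (-(ContinuousLinearMap.id ℝ E)) y := by
    simpa using (hasFDerivAt_id y).const_sub x
  have h3 := (h1.hasFDerivAt.comp y h2)
  have : fderiv ℝ (ker φ x) y = (fderiv ℝ (φ.normed volume) (x - y)).comp
      (-(ContinuousLinearMap.id ℝ E)) := h3.fderiv
  rw [this]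
  simp

lemma fderiv_moll (φ : ContDiffBump (0 : E)) {u : E → ℝ} (hu : LocallyIntegrable u volume)
    (x v : E) :
    fderiv ℝ (moll φ u) x v = - ∫ y, u y * fderiv ℝ (ker φ x) y v := by
  have h := (φ.hasCompactSupport_normed (μ := volume)).hasFDerivAt_convolution_left
    (ContinuousLinearMap.lsmul ℝ ℝ) ((φ.contDiff_normed (n := 1))) hu x
  have h' : fderiv ℝ (moll φ u) x = _ := h.fderiv
  rw [h', convolution_eq_swap]
  have hint : Integrable (fun t => ((ContinuousLinearMap.precompL E (ContinuousLinearMap.lsmul ℝ ℝ))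
      (fderiv ℝ (φ.normed volume) (x - t))) (u t)) volume := by
    have := ((φ.hasCompactSupport_normed (μ := volume)).fderiv ℝ).convolutionExists_left
      (ContinuousLinearMap.precompL E (ContinuousLinearMap.lsmul ℝ ℝ (E := ℝ)))
      ((φ.contDiff_normed (n := 1) (μ := volume)).continuous_fderiv (by simp)) hu x
    exact this.integrable_swap
  rw [ContinuousLinearMap.integral_apply hint, ← integral_neg]
  refine integral_congr_ae (Eventually.of_forall fun y => ?_)
  simp only [fderiv_ker]
  simp [ContinuousLinearMap.precompL_apply, mul_comm]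

/-- If `g` is the weak derivative of `u` in direction `v` on `U`, then the mollification of `g`
is the derivative of the mollification of `u`. -/
lemma fderiv_moll_of_weak {U : Set E} (φ : ContDiffBump (0 : E)) {u g : E → ℝ}
    (hu : LocallyIntegrable u volume) {v : E}
    (hw : ∀ ψ : E → ℝ, ContDiff ℝ ∞ ψ → HasCompactSupport ψ → tsupport ψ ⊆ U →
      ∫ x, u x * fderiv ℝ ψ x v = - ∫ x, g x * ψ x) {x : E} (hx : closedBall x φ.rOut ⊆ U) :
    fderiv ℝ (moll φ u) x v = moll φ g x := by
  rw [fderiv_moll φ hu, hw _ (ker_contDiff φ x) (ker_hasCompactSupport φ x)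
    ((ker_tsupport_subset φ x).trans hx), neg_neg, moll_apply]
  simp_rw [mul_comm]

/-- If the distributional derivative of `g` in direction `v` on `U` is dominated by `μ` then
the derivative of the mollification is dominated by the mollification of `μ`. -/
lemma abs_fderiv_moll_le {U : Set E} (φ : ContDiffBump (0 : E)) {g : E → ℝ}
    (hg : LocallyIntegrable g volume) {v : E} {μ : Measure E}
    (hw : ∀ ψ : E → ℝ, ContDiff ℝ ∞ ψ → HasCompactSupport ψ → tsupport ψ ⊆ U →
      |∫ x, g x * fderiv ℝ ψ x v| ≤ ∫ x, |ψ x| ∂μ) {x : E} (hx : closedBall x φ.rOut ⊆ U) :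
    |fderiv ℝ (moll φ g) x v| ≤ ∫ y, ker φ x y ∂μ := by
  rw [fderiv_moll φ hg, abs_neg]
  refine (hw _ (ker_contDiff φ x) (ker_hasCompactSupport φ x)
    ((ker_tsupport_subset φ x).trans hx)).trans (le_of_eq ?_)
  exact integral_congr_ae (Eventually.of_forall fun y => abs_of_nonneg (ker_nonneg φ x y))

end

section
variable {E : Type*} [NormedAddCommGroup E] [NormedSpace ℝ E] [FiniteDimensional ℝ E]
  [MeasureSpace E] [BorelSpace E] [(volume : Measure E).IsAddHaarMeasure]

lemma ker_continuous_uncurry (φ : ContDiffBump (0 : E)) :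
    Continuous (Function.uncurry (ker φ)) := by
  unfold ker
  exact (φ.continuous_normed).comp (continuous_fst.sub continuous_snd)

lemma lintegral_ker (φ : ContDiffBump (0 : E)) (y : E) :
    ∫⁻ x, ENNReal.ofReal (ker φ x y) = 1 := by
  unfold ker
  rw [lintegral_sub_right_eq_self (fun x => ENNReal.ofReal (φ.normed volume x)) y]
  rw [← ofReal_integral_eq_lintegral_ofReal φ.integrable_normed
    (Eventually.of_forall fun x => φ.nonneg_normed x), φ.integral_normed]
  simp

lemma setLIntegral_ker_le (φ : ContDiffBump (0 : E)) {μ : Measure E} [IsFiniteMeasure μ]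
    (x₀ : E) (s : ℝ) :
    ∫⁻ x in closedBall x₀ s, ∫⁻ y, ENNReal.ofReal (ker φ x y) ∂μ
      ≤ μ (closedBall x₀ (s + φ.rOut)) := by
  rw [lintegral_lintegral_swap]
  · calc ∫⁻ y, ∫⁻ x in closedBall x₀ s, ENNReal.ofReal (ker φ x y) ∂volume ∂μ
        ≤ ∫⁻ y, (closedBall x₀ (s + φ.rOut)).indicator 1 y ∂μ := by
          refine lintegral_mono fun y => ?_
          by_cases hy : y ∈ closedBall x₀ (s + φ.rOut)
          · rw [indicator_of_mem hy, Pi.one_apply]
            calc ∫⁻ x in closedBall x₀ s, ENNReal.ofReal (ker φ x y) ∂volume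
                ≤ ∫⁻ x, ENNReal.ofReal (ker φ x y) := setLIntegral_le_lintegral _ _
              _ = 1 := lintegral_ker φ y
          · rw [indicator_of_notMem hy]
            refine le_of_eq ?_
            rw [setLIntegral_eq_zero_iff' measurableSet_closedBall]
            · refine Eventually.of_forall fun x hx => ?_
              have : y ∉ closedBall x φ.rOut := by
                intro h
                apply hy
                rw [mem_closedBall] at *
                linarith [dist_triangle y x x₀]
              simp [ker_zero_of_notMem φ this]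
            · have : Continuous fun x => ker φ x y :=
                (ker_continuous_uncurry φ).comp (continuous_id.prodMk continuous_const)
              exact (ENNReal.continuous_ofReal.comp this).measurable.aemeasurable
      _ = μ (closedBall x₀ (s + φ.rOut)) := lintegral_indicator_one measurableSet_closedBall
  · exact (ENNReal.continuous_ofReal.comp (ker_continuous_uncurry φ)).measurable.aemeasurable

lemma integral_abs_fderiv_moll_le {U : Set E} (φ : ContDiffBump (0 : E)) {g : E → ℝ}
    (hg : LocallyIntegrable g volume) {v : E} {μ : Measure E} [IsFiniteMeasure μ]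
    (hw : ∀ ψ : E → ℝ, ContDiff ℝ ∞ ψ → HasCompactSupport ψ → tsupport ψ ⊆ U →
      |∫ x, g x * fderiv ℝ ψ x v| ≤ ∫ x, |ψ x| ∂μ) {x₀ : E} {s : ℝ}
    (hx : closedBall x₀ (s + φ.rOut) ⊆ U) :
    ∫ x in closedBall x₀ s, |fderiv ℝ (moll φ g) x v| ≤ μ.real (closedBall x₀ (s + φ.rOut)) := by
  have hcont : Continuous fun x => |fderiv ℝ (moll φ g) x v| :=
    (((moll_contDiff φ hg).continuous_fderiv (by simp)).clm_apply continuous_const).abs
  rw [integral_eq_lintegral_of_nonneg_ae (Eventually.of_forall fun x => abs_nonneg _)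
    hcont.aestronglyMeasurable.restrict]
  unfold Measure.real
  apply ENNReal.toReal_mono (measure_ne_top _ _)
  refine le_trans ?_ (setLIntegral_ker_le φ (μ := μ) x₀ s)
  refine setLIntegral_mono' measurableSet_closedBall fun x hx' => ?_
  have h1 : closedBall x φ.rOut ⊆ U := by
    refine subset_trans ?_ hx
    apply closedBall_subset_closedBall'
    rw [mem_closedBall] at hx'
    linarith
  have h2 := abs_fderiv_moll_le φ hg hw h1
  have h3 : Integrable (ker φ x) μ :=
    ((ker_contDiff φ x).continuous).integrable_of_hasCompactSupport (ker_hasCompactSupport φ x)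
  calc ENNReal.ofReal |fderiv ℝ (moll φ g) x v| ≤ ENNReal.ofReal (∫ y, ker φ x y ∂μ) :=
        ENNReal.ofReal_le_ofReal h2
    _ = ∫⁻ y, ENNReal.ofReal (ker φ x y) ∂μ :=
        ofReal_integral_eq_lintegral_ofReal h3 (Eventually.of_forall fun y => ker_nonneg φ x y)

end

end Pool.Agent.Helper33.WBV
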