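import Mathlib
import Pool.Agent.Helper33.WBVMoll
set_option autoImplicit false

open MeasureTheory Set Metric Filter
open scoped Convolution ContDiff Topology

namespace Pool.Agent.Helper33.WBV

section
variable {n : ℕ}

/-- Standard basis vector. -/
noncomputable abbrev e (j : Fin n) : EuclideanSpace ℝ (Fin n) := EuclideanSpace.single j (1 : ℝ)

/-- The smooth identity: integration by parts for the vector field `θ(F) M(G)`. -/
lemma smooth_identity {χ : EuclideanSpace ℝ (Fin n) → ℝ} (hχ : ContDiff ℝ ∞ χ)
    (hχc : HasCompactSupport χ)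
    {M : Fin n → (Fin n → Fin n → ℝ) → ℝ} (hM : ∀ j, ContDiff ℝ ∞ (M j))
    {θ : (Fin n → ℝ) → ℝ} (hθ : ContDiff ℝ ∞ θ)
    {F : EuclideanSpace ℝ (Fin n) → (Fin n → ℝ)} (hF : ContDiff ℝ ∞ F)
    {G : EuclideanSpace ℝ (Fin n) → (Fin n → Fin n → ℝ)} (hG : ContDiff ℝ ∞ G)
    (hFG : ∀ x ∈ tsupport χ, ∀ i j, fderiv ℝ F x (e j) i = G x i j) :
    ∫ x, (∑ j, fderiv ℝ χ x (e j) * M j (G x)) * θ (F x) =
      - ∫ x, χ x * ((∑ j, fderiv ℝ (M j) (G x) (fderiv ℝ G x (e j))) * θ (F x)
        + fderiv ℝ θ (F x) (fun i => ∑ j, M j (G x) * G x i j)) := by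
  have hprod : ∀ j, ContDiff ℝ ∞ (fun x => M j (G x) * θ (F x)) := fun j =>
    ((hM j).comp hG).mul (hθ.comp hF)
  have hχd : Continuous (fderiv ℝ χ) := hχ.continuous_fderiv (by simp)
  have hIBP : ∀ j, ∫ x, χ x * fderiv ℝ (fun x => M j (G x) * θ (F x)) x (e j) =
      - ∫ x, fderiv ℝ χ x (e j) * (M j (G x) * θ (F x)) := by
    intro j
    apply integral_mul_fderiv_eq_neg_fderiv_mul_of_integrable
    · apply Continuous.integrable_of_hasCompactSupport
      · exact (hχd.clm_apply continuous_const).mul (hprod j).continuous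
      · exact ((hχc.fderiv_apply ℝ (e j))).mul_right
    · apply Continuous.integrable_of_hasCompactSupport
      · exact hχ.continuous.mul (((hprod j).continuous_fderiv (by simp)).clm_apply
          continuous_const)
      · exact hχc.mul_right
    · apply Continuous.integrable_of_hasCompactSupport
      · exact hχ.continuous.mul (hprod j).continuous
      · exact hχc.mul_right
    · intro x _
      exact (hχ.differentiable (by simp)) x
    · intro x _
      exact ((hprod j).differentiable (by simp)) x
  have h1 : ∫ x, (∑ j, fderiv ℝ χ x (e j) * M j (G x)) * θ (F x) =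
      ∑ j, ∫ x, fderiv ℝ χ x (e j) * (M j (G x) * θ (F x)) := by
    rw [← integral_finsetSum]
    · refine integral_congr_ae (Eventually.of_forall fun x => ?_)
      simp only [Finset.sum_mul]
      refine Finset.sum_congr rfl fun j _ => ?_
      ring
    · intro j _
      apply Continuous.integrable_of_hasCompactSupport
      · exact (hχd.clm_apply continuous_const).mul (hprod j).continuous
      · exact ((hχc.fderiv_apply ℝ (e j))).mul_right
  have h2 : ∀ j, ∫ x, fderiv ℝ χ x (e j) * (M j (G x) * θ (F x)) =
      - ∫ x, χ x * fderiv ℝ (fun x => M j (G x) * θ (F x)) x (e j) := by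
    intro j; rw [hIBP j, neg_neg]
  rw [h1]
  simp_rw [h2]
  rw [Finset.sum_neg_distrib, ← integral_finsetSum]
  · congr 1
    refine integral_congr_ae (Eventually.of_forall fun x => ?_)
    simp only
    by_cases hx : x ∈ tsupport χ
    · rw [← Finset.mul_sum]
      congr 1
      have hderiv : ∀ j, fderiv ℝ (fun x => M j (G x) * θ (F x)) x (e j) =
          fderiv ℝ (M j) (G x) (fderiv ℝ G x (e j)) * θ (F x) +
            M j (G x) * fderiv ℝ θ (F x) (fderiv ℝ F x (e j)) := by
        intro j
        have d1 : HasFDerivAt G (fderiv ℝ G x) x := ((hG.differentiable (by simp)) x).hasFDerivAt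
        have d2 : HasFDerivAt F (fderiv ℝ F x) x := ((hF.differentiable (by simp)) x).hasFDerivAt
        have d3 : HasFDerivAt (M j) (fderiv ℝ (M j) (G x)) (G x) :=
          (((hM j).differentiable (by simp)) (G x)).hasFDerivAt
        have d4 : HasFDerivAt θ (fderiv ℝ θ (F x)) (F x) :=
          ((hθ.differentiable (by simp)) (F x)).hasFDerivAt
        have d5 := (d3.comp x d1).mul (d4.comp x d2)
        have d6 : fderiv ℝ (fun x => M j (G x) * θ (F x)) x = _ := d5.fderiv
        rw [d6]
        simp
        ring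
      simp_rw [hderiv]
      rw [Finset.sum_add_distrib, ← Finset.sum_mul]
      congr 1
      have h3 : (fun i => ∑ j, M j (G x) * G x i j) = ∑ j, M j (G x) • fderiv ℝ F x (e j) := by
        ext i
        simp only [Finset.sum_apply, Pi.smul_apply, smul_eq_mul]
        refine Finset.sum_congr rfl fun j _ => ?_
        rw [hFG x hx i j]
      rw [h3, map_sum]
      refine Finset.sum_congr rfl fun j _ => ?_
      rw [map_smul, smul_eq_mul]
    · have : χ x = 0 := image_eq_zero_of_notMem_tsupport hx
      simp [this]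
  · intro j _
    apply Continuous.integrable_of_hasCompactSupport
    · exact hχ.continuous.mul (((hprod j).continuous_fderiv (by simp)).clm_apply
        continuous_const)
    · exact hχc.mul_right


lemma norm_fin_fin_le (A : Fin n → Fin n → ℝ) : ‖A‖ ≤ ∑ i, ∑ l, |A i l| := by
  rw [pi_norm_le_iff_of_nonneg (by positivity)]
  intro i
  rw [pi_norm_le_iff_of_nonneg (by positivity)]
  intro l
  calc ‖A i l‖ = |A i l| := rfl
    _ ≤ ∑ l, |A i l| := Finset.single_le_sum (f := fun l => |A i l|)
        (fun _ _ => abs_nonneg _) (Finset.mem_univ l)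
    _ ≤ ∑ i, ∑ l, |A i l| := Finset.single_le_sum (f := fun i => ∑ l, |A i l|)
        (fun _ _ => by positivity) (Finset.mem_univ i)

/-- The estimate for the mollified maps. -/
lemma estimate {U : Set (EuclideanSpace ℝ (Fin n))}
    {u : Fin n → EuclideanSpace ℝ (Fin n) → ℝ} {g : Fin n → Fin n → EuclideanSpace ℝ (Fin n) → ℝ}
    {μ : Measure (EuclideanSpace ℝ (Fin n))} [IsFiniteMeasure μ]
    (hu : ∀ i, LocallyIntegrable (u i) volume) (hg : ∀ i j, LocallyIntegrable (g i j) volume)
    (hw1 : ∀ i j, ∀ ψ : EuclideanSpace ℝ (Fin n) → ℝ, ContDiff ℝ ∞ ψ → HasCompactSupport ψ →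
      tsupport ψ ⊆ U → ∫ x, u i x * fderiv ℝ ψ x (e j) = - ∫ x, g i j x * ψ x)
    (hw2 : ∀ i j k, ∀ ψ : EuclideanSpace ℝ (Fin n) → ℝ, ContDiff ℝ ∞ ψ → HasCompactSupport ψ →
      tsupport ψ ⊆ U → |∫ x, g i j x * fderiv ℝ ψ x (e k)| ≤ ∫ x, |ψ x| ∂μ)
    {χ : EuclideanSpace ℝ (Fin n) → ℝ} (hχ : ContDiff ℝ ∞ χ)
    {x₀ : EuclideanSpace ℝ (Fin n)} {s : ℝ} (hχs : tsupport χ ⊆ closedBall x₀ s)
    {M : Fin n → (Fin n → Fin n → ℝ) → ℝ} (hM : ∀ j, ContDiff ℝ ∞ (M j))
    {θ : (Fin n → ℝ) → ℝ} (hθ : ContDiff ℝ ∞ θ) {CM Cθ Cχ : ℝ}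
    (hCM : ∀ j A, ‖fderiv ℝ (M j) A‖ ≤ CM) (hCθ : ∀ y, ‖fderiv ℝ θ y‖ ≤ Cθ)
    (hθ1 : ∀ y, |θ y| ≤ 1) (hCχ : ∀ x, |χ x| ≤ Cχ)
    (φ : ContDiffBump (0 : EuclideanSpace ℝ (Fin n)))
    (hφ : closedBall x₀ (s + φ.rOut) ⊆ U) :
    |∫ x, (∑ j, fderiv ℝ χ x (e j) * M j (fun i j => moll φ (g i j) x)) *
        θ (fun i => moll φ (u i) x)| ≤
      Cχ * (CM * (n ^ 3 * μ.real (closedBall x₀ (s + φ.rOut)))) +
      ∫ x, |χ x| * (Cθ * ‖(fun i => ∑ j, M j (fun i j => moll φ (g i j) x) * moll φ (g i j) x :
        Fin n → ℝ)‖) := by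
  have hχc : HasCompactSupport χ :=
    (isCompact_closedBall x₀ s).of_isClosed_subset (isClosed_tsupport χ) hχs
  set F : EuclideanSpace ℝ (Fin n) → (Fin n → ℝ) := fun x i => moll φ (u i) x with hFdef
  set G : EuclideanSpace ℝ (Fin n) → (Fin n → Fin n → ℝ) := fun x i j => moll φ (g i j) x
    with hGdef
  have hF : ContDiff ℝ ∞ F := contDiff_pi.2 fun i => moll_contDiff φ (hu i)
  have hG : ContDiff ℝ ∞ G := contDiff_pi.2 fun i => contDiff_pi.2 fun j => moll_contDiff φ (hg i j)
  have hFd : ∀ x v i, fderiv ℝ F x v i = fderiv ℝ (moll φ (u i)) x v := by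
    intro x v i
    have h := hasFDerivAt_pi'.1 ((hF.differentiable (by simp)) x).hasFDerivAt i
    have h' : fderiv ℝ (moll φ (u i)) x = _ := h.fderiv
    rw [h']; rfl
  have hGd : ∀ x v i j, fderiv ℝ G x v i j = fderiv ℝ (moll φ (g i j)) x v := by
    intro x v i j
    have h := hasFDerivAt_pi'.1 (hasFDerivAt_pi'.1
      ((hG.differentiable (by simp)) x).hasFDerivAt i) j
    have h' : fderiv ℝ (moll φ (g i j)) x = _ := h.fderiv
    rw [h']; rfl
  have hball : ∀ x ∈ closedBall x₀ s, closedBall x φ.rOut ⊆ U := by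
    intro x hx
    refine subset_trans ?_ hφ
    apply closedBall_subset_closedBall'
    rw [mem_closedBall] at hx
    linarith
  have hFG : ∀ x ∈ tsupport χ, ∀ i j, fderiv ℝ F x (e j) i = G x i j := by
    intro x hx i j
    rw [hFd, fderiv_moll_of_weak φ (hu i) (hw1 i j) (hball x (hχs hx))]
  have key := smooth_identity hχ hχc hM hθ hF hG hFG
  have hCM0 : 0 ≤ CM ∨ n = 0 := by
    rcases Nat.eq_zero_or_pos n with h | h
    · exact Or.inr h
    · exact Or.inl ((norm_nonneg _).trans (hCM ⟨0, h⟩ 0))
  change |∫ x, (∑ j, fderiv ℝ χ x (e j) * M j (G x)) * θ (F x)| ≤ _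
  rw [key, abs_neg]
  have hGc : Continuous (fderiv ℝ G) := hG.continuous_fderiv (by simp)
  have hint1 : ∀ j, Continuous fun x => ‖fderiv ℝ G x (e j)‖ := fun j =>
    (hGc.clm_apply continuous_const).norm
  have hint2 : Continuous fun x => ‖(fun i => ∑ j, M j (G x) * G x i j : Fin n → ℝ)‖ := by
    apply Continuous.norm
    refine continuous_pi fun i => continuous_finsetSum _ fun j _ => ?_
    exact ((hM j).continuous.comp hG.continuous).mul
      ((continuous_apply j).comp ((continuous_apply i).comp hG.continuous))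
  have hA : Integrable (fun x => |χ x| * ∑ j, CM * ‖fderiv ℝ G x (e j)‖) := by
    apply Continuous.integrable_of_hasCompactSupport
    · exact hχ.continuous.abs.mul (continuous_finsetSum _ fun j _ => continuous_const.mul (hint1 j))
    · exact HasCompactSupport.mul_right (hχc.comp_left abs_zero)
  have hB : Integrable (fun x => |χ x| * (Cθ *
      ‖(fun i => ∑ j, M j (G x) * G x i j : Fin n → ℝ)‖)) := by
    apply Continuous.integrable_of_hasCompactSupport
    · exact hχ.continuous.abs.mul (continuous_const.mul hint2)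
    · exact HasCompactSupport.mul_right (hχc.comp_left abs_zero)
  calc |∫ x, χ x * ((∑ j, fderiv ℝ (M j) (G x) (fderiv ℝ G x (e j))) * θ (F x)
        + fderiv ℝ θ (F x) (fun i => ∑ j, M j (G x) * G x i j))|
      ≤ ∫ x, |χ x * ((∑ j, fderiv ℝ (M j) (G x) (fderiv ℝ G x (e j))) * θ (F x)
        + fderiv ℝ θ (F x) (fun i => ∑ j, M j (G x) * G x i j))| := abs_integral_le_integral_abs
    _ ≤ ∫ x, (|χ x| * ∑ j, CM * ‖fderiv ℝ G x (e j)‖) + |χ x| * (Cθ *
          ‖(fun i => ∑ j, M j (G x) * G x i j : Fin n → ℝ)‖) := by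
        refine integral_mono_of_nonneg (Eventually.of_forall fun x => abs_nonneg _) (hA.add hB)
          (Eventually.of_forall fun x => ?_)
        simp only
        rw [abs_mul, ← mul_add]
        refine mul_le_mul_of_nonneg_left ?_ (abs_nonneg _)
        refine (abs_add_le _ _).trans (add_le_add ?_ ?_)
        · rw [abs_mul]
          calc |∑ j, fderiv ℝ (M j) (G x) (fderiv ℝ G x (e j))| * |θ (F x)|
              ≤ |∑ j, fderiv ℝ (M j) (G x) (fderiv ℝ G x (e j))| * 1 :=
                mul_le_mul_of_nonneg_left (hθ1 _) (abs_nonneg _)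
            _ = |∑ j, fderiv ℝ (M j) (G x) (fderiv ℝ G x (e j))| := mul_one _
            _ ≤ ∑ j, |fderiv ℝ (M j) (G x) (fderiv ℝ G x (e j))| := Finset.abs_sum_le_sum_abs _ _
            _ ≤ ∑ j, CM * ‖fderiv ℝ G x (e j)‖ := by
              refine Finset.sum_le_sum fun j _ => ?_
              exact ((fderiv ℝ (M j) (G x)).le_opNorm _).trans
                (mul_le_mul_of_nonneg_right (hCM j _) (norm_nonneg _))
        · exact ((fderiv ℝ θ (F x)).le_opNorm _).trans
                (mul_le_mul_of_nonneg_right (hCθ _) (norm_nonneg _))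
    _ = (∫ x, |χ x| * ∑ j, CM * ‖fderiv ℝ G x (e j)‖) + ∫ x, |χ x| * (Cθ *
          ‖(fun i => ∑ j, M j (G x) * G x i j : Fin n → ℝ)‖) := integral_add hA hB
    _ ≤ Cχ * (CM * (n ^ 3 * μ.real (closedBall x₀ (s + φ.rOut)))) + ∫ x, |χ x| * (Cθ *
          ‖(fun i => ∑ j, M j (G x) * G x i j : Fin n → ℝ)‖) := by
        refine add_le_add ?_ le_rfl
        rcases hCM0 with hCM0 | hn
        swap
        · subst hn
          simp
        have hCχ0 : 0 ≤ Cχ := (abs_nonneg _).trans (hCχ x₀)
        calc ∫ x, |χ x| * ∑ j, CM * ‖fderiv ℝ G x (e j)‖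
            = ∫ x in closedBall x₀ s, |χ x| * ∑ j, CM * ‖fderiv ℝ G x (e j)‖ := by
              symm
              apply setIntegral_eq_integral_of_forall_compl_eq_zero
              intro x hx
              have : χ x = 0 := image_eq_zero_of_notMem_tsupport fun h => hx (hχs h)
              simp [this]
          _ ≤ ∫ x in closedBall x₀ s, Cχ * (CM * ∑ j, ∑ i, ∑ l,
                |fderiv ℝ (moll φ (g i l)) x (e j)|) := by
              apply setIntegral_mono_on
              · exact hA.integrableOn
              · refine ContinuousOn.integrableOn_compact (isCompact_closedBall _ _)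
                  (Continuous.continuousOn ?_)
                refine continuous_const.mul (continuous_const.mul ?_)
                refine continuous_finsetSum _ fun j _ => continuous_finsetSum _ fun i _ =>
                  continuous_finsetSum _ fun l _ => ?_
                exact (((moll_contDiff φ (hg i l)).continuous_fderiv (by simp)).clm_apply
                  continuous_const).abs
              · exact measurableSet_closedBall
              · intro x _
                refine mul_le_mul (hCχ x) ?_ (by positivity) hCχ0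
                rw [← Finset.mul_sum]
                refine mul_le_mul_of_nonneg_left ?_ hCM0
                refine Finset.sum_le_sum fun j _ => ?_
                refine (norm_fin_fin_le _).trans (le_of_eq ?_)
                refine Finset.sum_congr rfl fun i _ => Finset.sum_congr rfl fun l _ => ?_
                rw [hGd]
          _ = Cχ * (CM * ∑ j, ∑ i, ∑ l, ∫ x in closedBall x₀ s,
                |fderiv ℝ (moll φ (g i l)) x (e j)|) := by
              have hi : ∀ i l j, IntegrableOn (fun x => |fderiv ℝ (moll φ (g i l)) x (e j)|)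
                  (closedBall x₀ s) := fun i l j =>
                ContinuousOn.integrableOn_compact (isCompact_closedBall _ _)
                (((moll_contDiff φ (hg i l)).continuous_fderiv (by simp)).clm_apply
                  continuous_const).abs.continuousOn
              rw [integral_const_mul, integral_const_mul, integral_finsetSum]
              · congr 2
                refine Finset.sum_congr rfl fun j _ => ?_
                rw [integral_finsetSum]
                · refine Finset.sum_congr rfl fun i _ => ?_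
                  rw [integral_finsetSum]
                  intro l _; exact hi i l j
                · intro i _
                  exact integrable_finsetSum _ fun l _ => hi i l j
              · intro j _
                exact integrable_finsetSum _ fun i _ => integrable_finsetSum _ fun l _ => hi i l j
          _ ≤ Cχ * (CM * ∑ _j : Fin n, ∑ _i : Fin n, ∑ _l : Fin n,
                μ.real (closedBall x₀ (s + φ.rOut))) := by
              refine mul_le_mul_of_nonneg_left (mul_le_mul_of_nonneg_left ?_ hCM0) hCχ0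
              refine Finset.sum_le_sum fun j _ => Finset.sum_le_sum fun i _ =>
                Finset.sum_le_sum fun l _ => ?_
              exact integral_abs_fderiv_moll_le φ (hg i l) (hw2 i l j) hφ
          _ = Cχ * (CM * (n ^ 3 * μ.real (closedBall x₀ (s + φ.rOut)))) := by
              simp only [Finset.sum_const, Finset.card_univ, Fintype.card_fin, nsmul_eq_mul]
              ring

end

end Pool.Agent.Helper33.WBV
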