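import Mathlib
import Pool.Agent.Helper33.WBVEst
set_option autoImplicit false

open MeasureTheory Set Metric Filter
open scoped Convolution ContDiff Topology

namespace Pool.Agent.Helper33.WBV

section
variable {n : ℕ}

/-- The estimate in the limit. -/
lemma limit_estimate {U : Set (EuclideanSpace ℝ (Fin n))}
    {u : Fin n → EuclideanSpace ℝ (Fin n) → ℝ} {g : Fin n → Fin n → EuclideanSpace ℝ (Fin n) → ℝ}
    {μ : Measure (EuclideanSpace ℝ (Fin n))} [IsFiniteMeasure μ]
    (hu : ∀ i, LocallyIntegrable (u i) volume) (hg : ∀ i j, LocallyIntegrable (g i j) volume)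
    (hw1 : ∀ i j, ∀ ψ : EuclideanSpace ℝ (Fin n) → ℝ, ContDiff ℝ ∞ ψ → HasCompactSupport ψ →
      tsupport ψ ⊆ U → ∫ x, u i x * fderiv ℝ ψ x (e j) = - ∫ x, g i j x * ψ x)
    (hw2 : ∀ i j k, ∀ ψ : EuclideanSpace ℝ (Fin n) → ℝ, ContDiff ℝ ∞ ψ → HasCompactSupport ψ →
      tsupport ψ ⊆ U → |∫ x, g i j x * fderiv ℝ ψ x (e k)| ≤ ∫ x, |ψ x| ∂μ)
    {χ : EuclideanSpace ℝ (Fin n) → ℝ} (hχ : ContDiff ℝ ∞ χ)
    {x₀ : EuclideanSpace ℝ (Fin n)} {s : ℝ} (hs : 0 < s) (hχs : tsupport χ ⊆ closedBall x₀ s)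
    {M : Fin n → (Fin n → Fin n → ℝ) → ℝ} (hM : ∀ j, ContDiff ℝ ∞ (M j))
    {θ : (Fin n → ℝ) → ℝ} (hθ : ContDiff ℝ ∞ θ) {CM CM0 CN Cθ Cχ : ℝ}
    (hCM : ∀ j A, ‖fderiv ℝ (M j) A‖ ≤ CM) (hCθ : ∀ y, ‖fderiv ℝ θ y‖ ≤ Cθ)
    (hCM0 : ∀ j A, |M j A| ≤ CM0)
    (hCN : ∀ A : Fin n → Fin n → ℝ, ‖(fun i => ∑ j, M j A * A i j : Fin n → ℝ)‖ ≤ CN)
    (hθ1 : ∀ y, |θ y| ≤ 1) (hCχ : ∀ x, |χ x| ≤ Cχ)
    (hN : ∀ᵐ x, x ∈ closedBall x₀ s →
      ∀ i, ∑ j, M j (fun i j => g i j x) * g i j x = 0)
    (hU : closedBall x₀ (2 * s) ⊆ U) :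
    |∫ x, (∑ j, fderiv ℝ χ x (e j) * M j (fun i j => g i j x)) *
        θ (fun i => u i x)| ≤
      Cχ * (CM * (n ^ 3 * μ.real (closedBall x₀ (2 * s)))) := by
  have hχc : HasCompactSupport χ :=
    (isCompact_closedBall x₀ s).of_isClosed_subset (isClosed_tsupport χ) hχs
  let φ : ℕ → ContDiffBump (0 : EuclideanSpace ℝ (Fin n)) := fun m =>
    { rIn := s / (m + 1) / 2
      rOut := s / (m + 1)
      rIn_pos := by positivity
      rIn_lt_rOut := by
        have : 0 < s / (m + 1) := by positivity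
        linarith }
  have hφ0 : Tendsto (fun m => (φ m).rOut) atTop (𝓝 0) := by
    change Tendsto (fun m : ℕ => s / (m + 1 : ℝ)) atTop (𝓝 0)
    exact tendsto_const_div_atTop_nhds_zero_nat s |>.comp (tendsto_add_atTop_nat 1) |>.congr
      fun m => by simp
  have hφr : ∀ m, (φ m).rOut ≤ s := by
    intro m
    change s / (m + 1 : ℝ) ≤ s
    apply div_le_self hs.le
    linarith [Nat.cast_nonneg (α := ℝ) m]
  have hφK : ∀ᶠ m in atTop, (φ m).rOut ≤ 2 * (φ m).rIn := by
    refine Eventually.of_forall fun m => ?_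
    change s / (m + 1 : ℝ) ≤ 2 * (s / (m + 1) / 2)
    linarith
  have hconv : ∀ v : EuclideanSpace ℝ (Fin n) → ℝ, LocallyIntegrable v volume →
      ∀ᵐ x, Tendsto (fun m => moll (φ m) v x) atTop (𝓝 (v x)) := fun v hv =>
    ContDiffBump.ae_convolution_tendsto_right_of_locallyIntegrable hφ0 hφK hv
  have hconvU : ∀ᵐ x, Tendsto (fun m => (fun i => moll (φ m) (u i) x : Fin n → ℝ)) atTop
      (𝓝 (fun i => u i x)) := by
    have : ∀ᵐ x, ∀ i, Tendsto (fun m => moll (φ m) (u i) x) atTop (𝓝 (u i x)) :=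
      ae_all_iff.2 fun i => hconv _ (hu i)
    filter_upwards [this] with x hx
    exact tendsto_pi_nhds.2 hx
  have hconvG : ∀ᵐ x, Tendsto (fun m => (fun i j => moll (φ m) (g i j) x : Fin n → Fin n → ℝ))
      atTop (𝓝 (fun i j => g i j x)) := by
    have : ∀ᵐ x, ∀ i j, Tendsto (fun m => moll (φ m) (g i j) x) atTop (𝓝 (g i j x)) :=
      ae_all_iff.2 fun i => ae_all_iff.2 fun j => hconv _ (hg i j)
    filter_upwards [this] with x hx
    exact tendsto_pi_nhds.2 fun i => tendsto_pi_nhds.2 (hx i)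
  have hχd : Continuous (fderiv ℝ χ) := hχ.continuous_fderiv (by simp)
  have hmG : ∀ m, Continuous fun x => (fun i j => moll (φ m) (g i j) x : Fin n → Fin n → ℝ) :=
    fun m => continuous_pi fun i => continuous_pi fun j => (moll_contDiff _ (hg i j)).continuous
  have hmU : ∀ m, Continuous fun x => (fun i => moll (φ m) (u i) x : Fin n → ℝ) :=
    fun m => continuous_pi fun i => (moll_contDiff _ (hu i)).continuous
  -- left-hand side
  have hL : Tendsto (fun m => |∫ x, (∑ j, fderiv ℝ χ x (e j) *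
      M j (fun i j => moll (φ m) (g i j) x)) * θ (fun i => moll (φ m) (u i) x)|) atTop
      (𝓝 |∫ x, (∑ j, fderiv ℝ χ x (e j) * M j (fun i j => g i j x)) *
        θ (fun i => u i x)|) := by
    refine Tendsto.abs ?_
    refine tendsto_integral_of_dominated_convergence
      (fun x => ∑ j : Fin n, |fderiv ℝ χ x (e j)| * CM0) ?_ ?_ ?_ ?_
    · intro m
      apply Continuous.aestronglyMeasurable
      refine Continuous.mul (continuous_finsetSum _ fun j _ => ?_) (hθ.continuous.comp (hmU m))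
      exact (hχd.clm_apply continuous_const).mul ((hM j).continuous.comp (hmG m))
    · refine integrable_finsetSum _ fun j _ => ?_
      apply Integrable.mul_const
      apply Continuous.integrable_of_hasCompactSupport
      · exact (hχd.clm_apply continuous_const).abs
      · exact (hχc.fderiv_apply ℝ (e j)).comp_left abs_zero
    · intro m
      refine Eventually.of_forall fun x => ?_
      rw [Real.norm_eq_abs, abs_mul]
      calc _ ≤ |∑ j, fderiv ℝ χ x (e j) * M j (fun i j => moll (φ m) (g i j) x)| * 1 :=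
            mul_le_mul_of_nonneg_left (hθ1 _) (abs_nonneg _)
        _ = |∑ j, fderiv ℝ χ x (e j) * M j (fun i j => moll (φ m) (g i j) x)| := mul_one _
        _ ≤ ∑ j, |fderiv ℝ χ x (e j) * M j (fun i j => moll (φ m) (g i j) x)| :=
            Finset.abs_sum_le_sum_abs _ _
        _ ≤ _ := by
            refine Finset.sum_le_sum fun j _ => ?_
            rw [abs_mul]
            exact mul_le_mul_of_nonneg_left (hCM0 _ _) (abs_nonneg _)
    · filter_upwards [hconvU, hconvG] with x hx1 hx2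
      refine Tendsto.mul (tendsto_finsetSum _ fun j _ => ?_) ((hθ.continuous.tendsto _).comp hx1)
      exact tendsto_const_nhds.mul (((hM j).continuous.tendsto _).comp hx2)
  -- right-hand side
  have hR : Tendsto (fun m => ∫ x, |χ x| * (Cθ *
      ‖(fun i => ∑ j, M j (fun i j => moll (φ m) (g i j) x) * moll (φ m) (g i j) x :
        Fin n → ℝ)‖)) atTop (𝓝 (∫ x, |χ x| * (Cθ *
      ‖(fun i => ∑ j, M j (fun i j => g i j x) * g i j x : Fin n → ℝ)‖))) := by
    have hCθ0 : 0 ≤ Cθ := (norm_nonneg _).trans (hCθ 0)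
    refine tendsto_integral_of_dominated_convergence
      (fun x => |χ x| * (Cθ * CN)) ?_ ?_ ?_ ?_
    · intro m
      apply Continuous.aestronglyMeasurable
      refine hχ.continuous.abs.mul (continuous_const.mul (Continuous.norm ?_))
      refine continuous_pi fun i => continuous_finsetSum _ fun j _ => ?_
      exact ((hM j).continuous.comp (hmG m)).mul (moll_contDiff _ (hg i j)).continuous
    · apply Integrable.mul_const
      apply Continuous.integrable_of_hasCompactSupport hχ.continuous.abs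
      exact hχc.comp_left abs_zero
    · intro m
      refine Eventually.of_forall fun x => ?_
      rw [Real.norm_eq_abs, abs_of_nonneg (by positivity)]
      refine mul_le_mul_of_nonneg_left (mul_le_mul_of_nonneg_left ?_ hCθ0) (abs_nonneg _)
      exact hCN (fun i j => moll (φ m) (g i j) x)
    · filter_upwards [hconvG] with x hx2
      refine tendsto_const_nhds.mul (tendsto_const_nhds.mul (Tendsto.norm ?_))
      refine tendsto_pi_nhds.2 fun i => tendsto_finsetSum _ fun j _ => ?_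
      exact (((hM j).continuous.tendsto _).comp hx2).mul
        (tendsto_pi_nhds.1 (tendsto_pi_nhds.1 hx2 i) j)
  have hR0 : ∫ x, |χ x| * (Cθ *
      ‖(fun i => ∑ j, M j (fun i j => g i j x) * g i j x : Fin n → ℝ)‖) = 0 := by
    apply integral_eq_zero_of_ae
    filter_upwards [hN] with x hx
    by_cases hx' : x ∈ closedBall x₀ s
    · have : (fun i => ∑ j, M j (fun i j => g i j x) * g i j x : Fin n → ℝ) = 0 := by
        ext i; exact hx hx' i
      rw [this]; simp
    · have : χ x = 0 := image_eq_zero_of_notMem_tsupport fun h => hx' (hχs h)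
      simp [this]
  rw [hR0] at hR
  have hR' := (tendsto_const_nhds (x := Cχ * (CM * (n ^ 3 * μ.real (closedBall x₀ (2 * s)))))).add
    hR
  rw [add_zero] at hR'
  refine le_of_tendsto_of_tendsto' hL hR' fun m => ?_
  have hsub : closedBall x₀ (s + (φ m).rOut) ⊆ closedBall x₀ (2 * s) :=
    closedBall_subset_closedBall (by linarith [hφr m])
  refine (estimate hu hg hw1 hw2 hχ hχs hM hθ hCM hCθ hθ1 hCχ (φ m) (hsub.trans hU)).trans ?_
  refine add_le_add ?_ le_rfl
  have hCM0 : 0 ≤ CM ∨ n = 0 := by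
    rcases Nat.eq_zero_or_pos n with h | h
    · exact Or.inr h
    · exact Or.inl ((norm_nonneg _).trans (hCM ⟨0, h⟩ 0))
  rcases hCM0 with hCM0 | hn
  swap
  · subst hn
    simp
  have hCχ0 : 0 ≤ Cχ := (abs_nonneg _).trans (hCχ x₀)
  refine mul_le_mul_of_nonneg_left (mul_le_mul_of_nonneg_left (mul_le_mul_of_nonneg_left ?_
    (by positivity)) hCM0) hCχ0
  exact measureReal_mono hsub

end

end Pool.Agent.Helper33.WBV
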