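import Mathlib
import Pool.Agent.Helper33.WBVAlg
import Pool.Agent.Helper33.WBVLim
set_option autoImplicit false

open MeasureTheory Set Metric Filter
open scoped Convolution ContDiff Topology

namespace Pool.Agent.Helper33.WBV

section
variable {n : ℕ}

/-- A smooth compactly supported function on a finite-dimensional space is bounded. -/
lemma exists_bound_of_compact {V : Type*} [NormedAddCommGroup V] {F : Type*}
    [NormedAddCommGroup F] {f : V → F} (hf : Continuous f) (hc : HasCompactSupport f) :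
    ∃ C, ∀ x, ‖f x‖ ≤ C := hc.exists_bound_of_continuous hf

/-- A test function separating two disjoint compact sets. -/
lemma exists_theta {S T : Set (Fin n → ℝ)} (hS : IsCompact S) (hT : IsCompact T)
    (hST : Disjoint S T) : ∃ θ : (Fin n → ℝ) → ℝ, ContDiff ℝ ∞ θ ∧ HasCompactSupport θ ∧
      (∀ y, 0 ≤ θ y) ∧ (∀ y, θ y ≤ 1) ∧ (∀ y ∈ S, θ y = 1) ∧ (∀ y ∈ T, θ y = 0) := by
  obtain ⟨f, hf, hfr, hf0, hf1⟩ := exists_contMDiff_zero_iff_one_iff_of_isClosed
    (I := modelWithCornersSelf ℝ (Fin n → ℝ)) (n := ⊤) hT.isClosed hS.isClosed hST.symm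
  obtain ⟨R, hR, hRS⟩ := hS.isBounded.subset_closedBall_lt 0 0
  let b : ContDiffBump (0 : Fin n → ℝ) := ⟨R, R + 1, hR, by linarith⟩
  refine ⟨fun y => f y * b y, hf.contDiff.mul b.contDiff, b.hasCompactSupport.mul_left, ?_, ?_,
    ?_, ?_⟩
  · intro y
    exact mul_nonneg (hfr ⟨y, rfl⟩).1 b.nonneg
  · intro y
    exact mul_le_one₀ (hfr ⟨y, rfl⟩).2 b.nonneg b.le_one
  · intro y hy
    simp only
    rw [(hf1 y).1 hy, b.one_of_mem_closedBall (hRS hy), one_mul]
  · intro y hy
    simp only
    rw [(hf0 y).1 hy, zero_mul]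

/-- A fixed bump function on `ℝⁿ`. -/
noncomputable def χ₀ : ContDiffBump (0 : EuclideanSpace ℝ (Fin n)) :=
  ⟨1 / 2, 1, by norm_num, by norm_num⟩

/-- The positive part of the directional derivative of the bump has positive integral. -/
lemma integral_pos_part_pos {v : EuclideanSpace ℝ (Fin n)} (hv : v ≠ 0) :
    0 < ∫ y, max (fderiv ℝ (χ₀ (n := n)) y v) 0 := by
  have hc : ContDiff ℝ ∞ (χ₀ (n := n)) := χ₀.contDiff
  have hcd : Continuous fun y => fderiv ℝ (χ₀ (n := n)) y v :=
    (hc.continuous_fderiv (by simp)).clm_apply continuous_const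
  have hcm : Continuous fun y => max (fderiv ℝ (χ₀ (n := n)) y v) 0 := hcd.max continuous_const
  have hcs : HasCompactSupport fun y => max (fderiv ℝ (χ₀ (n := n)) y v) 0 :=
    (χ₀.hasCompactSupport.fderiv_apply ℝ v).comp_left (g := fun t : ℝ => max t 0) (by simp)
  refine (integral_nonneg fun y => le_max_right _ _).lt_of_ne ?_
  intro h0
  have h2 : ∀ y, fderiv ℝ (χ₀ (n := n)) y v ≤ 0 := by
    intro y
    by_contra hy
    push Not at hy
    have : 0 < ∫ y, max (fderiv ℝ (χ₀ (n := n)) y v) 0 :=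
      Continuous.integral_pos_of_hasCompactSupport_nonneg_nonzero hcm hcs
        (fun y => le_max_right _ _) (x := y) (by simp [hy.le, hy.ne'])
    exact this.ne h0
  -- `t ↦ χ₀ (t v)` is antitone
  have h3 : ∀ t : ℝ, HasDerivAt (fun t : ℝ => χ₀ (n := n) (t • v))
      (fderiv ℝ (χ₀ (n := n)) (t • v) v) t := by
    intro t
    have d1 : HasFDerivAt (χ₀ (n := n)) (fderiv ℝ (χ₀ (n := n)) (t • v)) (t • v) :=
      ((hc.differentiable (by simp)) _).hasFDerivAt
    have d2 : HasDerivAt (fun t : ℝ => t • v) v t := by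
      simpa using (hasDerivAt_id t).smul_const v
    exact HasFDerivAt.comp_hasDerivAt (f := fun t : ℝ => t • v)
      (l := (χ₀ (n := n) : EuclideanSpace ℝ (Fin n) → ℝ)) t d1 d2
  have h4 : Antitone fun t : ℝ => χ₀ (n := n) (t • v) := by
    apply antitone_of_deriv_nonpos
    · intro t; exact (h3 t).differentiableAt
    · intro t; rw [(h3 t).deriv]; exact h2 _
  have hvn : 0 < ‖v‖ := norm_pos_iff.2 hv
  have h5 : (χ₀ (n := n)) ((-(2 / ‖v‖)) • v) = 0 := by
    apply χ₀.zero_of_le_dist
    change (1 : ℝ) ≤ _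
    rw [dist_zero_right, norm_smul, norm_neg, norm_div, Real.norm_eq_abs, norm_norm]
    field_simp
    norm_num
  have h6 : (χ₀ (n := n)) ((0 : ℝ) • v) = 1 := by
    apply χ₀.one_of_mem_closedBall
    rw [zero_smul]
    exact mem_closedBall_self (by norm_num [χ₀])
  have h7 := h4 (show (-(2 / ‖v‖)) ≤ 0 by
    have : 0 < 2 / ‖v‖ := by positivity
    linarith)
  simp only at h7
  rw [h5, h6] at h7
  linarith


/-- The inequality at a single scale. -/
lemma scale_inequality {U : Set (EuclideanSpace ℝ (Fin n))}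
    {u : Fin n → EuclideanSpace ℝ (Fin n) → ℝ} {g : Fin n → Fin n → EuclideanSpace ℝ (Fin n) → ℝ}
    {μ : Measure (EuclideanSpace ℝ (Fin n))} [IsFiniteMeasure μ]
    (hu : ∀ i, LocallyIntegrable (u i) volume) (hg : ∀ i j, LocallyIntegrable (g i j) volume)
    (hw1 : ∀ i j, ∀ ψ : EuclideanSpace ℝ (Fin n) → ℝ, ContDiff ℝ ∞ ψ → HasCompactSupport ψ →
      tsupport ψ ⊆ U → ∫ x, u i x * fderiv ℝ ψ x (e j) = - ∫ x, g i j x * ψ x)
    (hw2 : ∀ i j k, ∀ ψ : EuclideanSpace ℝ (Fin n) → ℝ, ContDiff ℝ ∞ ψ → HasCompactSupport ψ →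
      tsupport ψ ⊆ U → |∫ x, g i j x * fderiv ℝ ψ x (e k)| ≤ ∫ x, |ψ x| ∂μ)
    {x₀ : EuclideanSpace ℝ (Fin n)} {s : ℝ} (hs : 0 < s)
    {M : Fin n → (Fin n → Fin n → ℝ) → ℝ} (hM : ∀ j, ContDiff ℝ ∞ (M j))
    {CM CM0 CN C1 : ℝ}
    (hCM : ∀ j A, ‖fderiv ℝ (M j) A‖ ≤ CM)
    (hCM0 : ∀ j A, |M j A| ≤ CM0)
    (hCN : ∀ A : Fin n → Fin n → ℝ, ‖(fun i => ∑ j, M j A * A i j : Fin n → ℝ)‖ ≤ CN)
    (hC1 : ∀ y, ‖fderiv ℝ (χ₀ (n := n)) y‖ ≤ C1)
    (hN : ∀ᵐ x, x ∈ closedBall x₀ s →
      ∀ i, ∑ j, M j (fun i j => g i j x) * g i j x = 0)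
    (hU : closedBall x₀ (2 * s) ⊆ U)
    (hcont : ContinuousOn (fun x i => u i x) (closedBall x₀ s))
    (hinj : InjOn (fun x i => u i x) (closedBall x₀ s))
    (v : Fin n → ℝ) (hv : (∑ j, v j • e j) ≠ 0) :
    s ^ n * ((∫ y, max (fderiv ℝ (χ₀ (n := n)) y (∑ j, v j • e j)) 0) / 2) ≤
      C1 * (∑ j, ∫ x in closedBall x₀ s, |M j (fun i j => g i j x) - v j|) +
      s * (CM * (n ^ 3 * μ.real (closedBall x₀ (2 * s)))) := by
  set V : EuclideanSpace ℝ (Fin n) := ∑ j, v j • e j with hV
  set A : ℝ := ∫ y, max (fderiv ℝ (χ₀ (n := n)) y V) 0 with hA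
  have hApos : 0 < A := integral_pos_part_pos hv
  have hχ₀c : ContDiff ℝ ∞ (χ₀ (n := n)) := χ₀.contDiff
  have hχ₀d : Continuous (fderiv ℝ (χ₀ (n := n))) := hχ₀c.continuous_fderiv (by simp)
  have hχ₀t : tsupport (χ₀ (n := n)) = closedBall 0 1 := χ₀.tsupport_eq
  -- the rescaled derivative
  let a : EuclideanSpace ℝ (Fin n) → EuclideanSpace ℝ (Fin n) := fun x => s⁻¹ • (x - x₀)
  have ha : Continuous a := by
    change Continuous fun x => s⁻¹ • (x - x₀)
    fun_prop
  have hamem : ∀ x, a x ∈ closedBall (0 : EuclideanSpace ℝ (Fin n)) 1 ↔ x ∈ closedBall x₀ s := by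
    intro x
    rw [mem_closedBall, mem_closedBall, dist_zero_right, dist_eq_norm]
    change ‖s⁻¹ • (x - x₀)‖ ≤ 1 ↔ _
    rw [norm_smul, norm_inv, Real.norm_eq_abs, abs_of_pos hs, inv_mul_le_iff₀ hs, mul_one]
  let P : EuclideanSpace ℝ (Fin n) → EuclideanSpace ℝ (Fin n) →L[ℝ] ℝ :=
    fun x => fderiv ℝ (χ₀ (n := n)) (a x)
  have hPc : Continuous P := hχ₀d.comp ha
  have hP0 : ∀ x, x ∉ closedBall x₀ s → P x = 0 := by
    intro x hx
    apply fderiv_of_notMem_tsupport
    rw [hχ₀t, hamem]
    exact hx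
  have hPV : Continuous fun x => P x V := hPc.clm_apply continuous_const
  -- the rescaled bump
  let χ : EuclideanSpace ℝ (Fin n) → ℝ := fun x => χ₀ (n := n) (a x)
  have hχ : ContDiff ℝ ∞ χ := by
    refine hχ₀c.comp ?_
    change ContDiff ℝ ∞ fun x => s⁻¹ • (x - x₀)
    fun_prop
  have hχs : tsupport χ ⊆ closedBall x₀ s := by
    apply closure_minimal _ isClosed_closedBall
    intro x hx
    rw [← hamem, ← hχ₀t]
    exact subset_tsupport _ hx
  have hχd : ∀ x w, fderiv ℝ χ x w = s⁻¹ * P x w := by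
    intro x w
    have d1 : HasFDerivAt (χ₀ (n := n)) (P x) (a x) :=
      ((hχ₀c.differentiable (by simp)) _).hasFDerivAt
    have d2 : HasFDerivAt a (s⁻¹ • (ContinuousLinearMap.id ℝ (EuclideanSpace ℝ (Fin n)))) x :=
      ((hasFDerivAt_id x).sub_const x₀).const_smul s⁻¹
    have d3 : HasFDerivAt χ ((P x).comp (s⁻¹ • (ContinuousLinearMap.id ℝ
      (EuclideanSpace ℝ (Fin n))))) x :=
      HasFDerivAt.comp (g := (χ₀ (n := n) : EuclideanSpace ℝ (Fin n) → ℝ)) x d1 d2
    rw [d3.fderiv]
    simp
  -- the threshold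
  have hvs : 0 < volume.real (closedBall x₀ s) := by
    apply ENNReal.toReal_pos
    · exact (measure_closedBall_pos volume x₀ hs).ne'
    · exact measure_closedBall_lt_top.ne
  set vs := volume.real (closedBall x₀ s) with hvsdef
  set δ : ℝ := s ^ n * A / (2 * vs) with hδ
  have hδpos : 0 < δ := by positivity
  -- the two compact sets
  let K1 : Set (EuclideanSpace ℝ (Fin n)) := closedBall x₀ s ∩ {x | δ ≤ P x V}
  let K2 : Set (EuclideanSpace ℝ (Fin n)) := closedBall x₀ s ∩ {x | P x V ≤ -δ}
  have hK1 : IsCompact K1 := (isCompact_closedBall _ _).inter_right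
    (isClosed_le continuous_const hPV)
  have hK2 : IsCompact K2 := (isCompact_closedBall _ _).inter_right
    (isClosed_le hPV continuous_const)
  have hS1 : IsCompact ((fun x i => u i x) '' K1) :=
    hK1.image_of_continuousOn (hcont.mono inter_subset_left)
  have hS2 : IsCompact ((fun x i => u i x) '' K2) :=
    hK2.image_of_continuousOn (hcont.mono inter_subset_left)
  have hdisj : Disjoint ((fun x i => u i x) '' K1) ((fun x i => u i x) '' K2) := by
    rw [Set.disjoint_left]
    rintro _ ⟨x, hx, rfl⟩ ⟨y, hy, hxy⟩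
    have : y = x := hinj hy.1 hx.1 hxy
    subst this
    have h1 : δ ≤ P y V := hx.2
    have h2 : P y V ≤ -δ := hy.2
    linarith
  obtain ⟨θ, hθ, hθc, hθ0, hθ1, hθS, hθT⟩ := exists_theta hS1 hS2 hdisj
  obtain ⟨Cθ, hCθ⟩ := (hθc.fderiv ℝ).exists_bound_of_continuous (hθ.continuous_fderiv (by simp))
  have hest := limit_estimate hu hg hw1 hw2 hχ hs hχs hM hθ hCM hCθ hCM0 hCN
    (fun y => by rw [abs_of_nonneg (hθ0 y)]; exact hθ1 y)
    (Cχ := 1) (fun x => by rw [abs_of_nonneg χ₀.nonneg]; exact χ₀.le_one) hN hU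
  rw [one_mul] at hest
  -- measurability
  have huM : AEStronglyMeasurable (fun x => (fun i => u i x : Fin n → ℝ)) volume :=
    (aemeasurable_pi_lambda _ fun i => (hu i).aestronglyMeasurable.aemeasurable).aestronglyMeasurable
  have hθM : AEStronglyMeasurable (fun x => θ (fun i => u i x)) volume :=
    hθ.continuous.comp_aestronglyMeasurable huM
  have hgM : AEStronglyMeasurable (fun x => (fun i j => g i j x : Fin n → Fin n → ℝ)) volume :=
    (aemeasurable_pi_lambda _ fun i => aemeasurable_pi_lambda _ fun j =>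
      (hg i j).aestronglyMeasurable.aemeasurable).aestronglyMeasurable
  have hMM : ∀ j, AEStronglyMeasurable (fun x => M j (fun i j => g i j x)) volume := fun j =>
    (hM j).continuous.comp_aestronglyMeasurable hgM
  have hPcs : ∀ w, HasCompactSupport fun x => P x w := by
    intro w
    apply HasCompactSupport.of_support_subset_isCompact (isCompact_closedBall x₀ s)
    intro x hx
    by_contra h
    exact hx (by simp [hP0 x h])
  have hPint : ∀ w, Integrable fun x => P x w := fun w =>
    (hPc.clm_apply continuous_const).integrable_of_hasCompactSupport (hPcs w)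
  -- integrability of the three integrands
  have hθbd : ∀ x, ‖θ (fun i => u i x)‖ ≤ 1 := fun x => by
    rw [Real.norm_eq_abs, abs_of_nonneg (hθ0 _)]; exact hθ1 _
  have hI1 : Integrable fun x => P x V * θ (fun i => u i x) :=
    (hPint V).mul_bdd (c := 1) hθM (Eventually.of_forall hθbd)
  have hI2 : ∀ j, Integrable fun x => P x (e j) * M j (fun i j => g i j x) := fun j =>
    (hPint (e j)).mul_bdd (c := CM0) (hMM j) (Eventually.of_forall fun x => hCM0 j _)
  have hI3 : Integrable fun x => (∑ j, P x (e j) * M j (fun i j => g i j x)) *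
      θ (fun i => u i x) :=
    (integrable_finsetSum _ fun j _ => hI2 j).mul_bdd (c := 1) hθM (Eventually.of_forall hθbd)
  have hI4 : ∀ j, Integrable fun x => |P x (e j)| * |M j (fun i j => g i j x) - v j| := by
    intro j
    have : Integrable fun x => P x (e j) * (M j (fun i j => g i j x) - v j) :=
      (hPint (e j)).mul_bdd (c := CM0 + |v j|) ((hMM j).sub aestronglyMeasurable_const)
        (Eventually.of_forall fun x => (norm_sub_le _ _).trans (add_le_add (hCM0 j _) le_rfl))
    simpa [abs_mul] using this.abs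
  -- lower bound for the main term
  have hlow : s ^ n * (A / 2) ≤ ∫ x, P x V * θ (fun i => u i x) := by
    have h1 : ∫ x, max (P x V) 0 = s ^ n * A := by
      have h2 : ∫ x, max (P x V) 0 =
          ∫ x, (fun y => max (fderiv ℝ (χ₀ (n := n)) (s⁻¹ • y) V) 0) (x - x₀) := rfl
      rw [h2, integral_sub_right_eq_self
        (fun y => max (fderiv ℝ (χ₀ (n := n)) (s⁻¹ • y) V) 0) x₀]
      have h3 := Measure.integral_comp_inv_smul (volume : Measure (EuclideanSpace ℝ (Fin n)))
        (fun y => max (fderiv ℝ (χ₀ (n := n)) y V) 0) s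
      rw [h3, finrank_euclideanSpace_fin, smul_eq_mul, abs_of_pos (by positivity)]
    have hmaxI : Integrable fun x => max (P x V) 0 := by
      apply (hPV.max continuous_const).integrable_of_hasCompactSupport
      exact (hPcs V).comp_left (g := fun t : ℝ => max t 0) (by simp)
    have hindI : Integrable fun x => (closedBall x₀ s).indicator (fun _ => δ) x :=
      (integrable_indicator_iff measurableSet_closedBall).2
        (integrableOn_const measure_closedBall_lt_top.ne)
    have h4 : ∫ x, (max (P x V) 0 - (closedBall x₀ s).indicator (fun _ => δ) x) =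
        s ^ n * (A / 2) := by
      rw [integral_sub hmaxI hindI, h1, integral_indicator measurableSet_closedBall,
        setIntegral_const, smul_eq_mul, ← hvsdef, hδ]
      field_simp
      ring
    rw [← h4]
    refine integral_mono (hmaxI.sub hindI) hI1 fun x => ?_
    simp only
    by_cases hx : x ∈ closedBall x₀ s
    · rw [indicator_of_mem hx]
      have ht0 := hθ0 (fun i => u i x)
      have ht1 := hθ1 (fun i => u i x)
      rcases le_or_gt δ (P x V) with h5 | h5
      · have : θ (fun i => u i x) = 1 := hθS _ ⟨x, ⟨hx, h5⟩, rfl⟩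
        rw [this, mul_one, max_eq_left (by linarith)]
        linarith
      · rcases le_or_gt (P x V) (-δ) with h6 | h6
        · have : θ (fun i => u i x) = 0 := hθT _ ⟨x, ⟨hx, h6⟩, rfl⟩
          rw [this, mul_zero, max_eq_right (by linarith)]
          linarith
        · rcases le_total 0 (P x V) with h7 | h7
          · rw [max_eq_left h7]
            nlinarith
          · rw [max_eq_right h7]
            nlinarith
    · rw [indicator_of_notMem hx, hP0 x hx]
      simp
  -- decomposition
  have hdec : ∫ x, P x V * θ (fun i => u i x) ≤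
      (∫ x, (∑ j, P x (e j) * M j (fun i j => g i j x)) * θ (fun i => u i x)) +
      ∫ x, ∑ j, |P x (e j)| * |M j (fun i j => g i j x) - v j| := by
    rw [← integral_add hI3 (integrable_finsetSum _ fun j _ => hI4 j)]
    refine integral_mono hI1 (hI3.add (integrable_finsetSum _ fun j _ => hI4 j)) fun x => ?_
    simp only
    have h1 : P x V = ∑ j, v j * P x (e j) := by
      rw [hV, map_sum]
      refine Finset.sum_congr rfl fun j _ => ?_
      rw [map_smul, smul_eq_mul]
    have h2 : P x V * θ (fun i => u i x) -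
        (∑ j, P x (e j) * M j (fun i j => g i j x)) * θ (fun i => u i x) =
        (∑ j, P x (e j) * (v j - M j (fun i j => g i j x))) * θ (fun i => u i x) := by
      rw [h1, ← sub_mul, ← Finset.sum_sub_distrib]
      congr 1
      refine Finset.sum_congr rfl fun j _ => ?_
      ring
    have h3 : (∑ j, P x (e j) * (v j - M j (fun i j => g i j x))) * θ (fun i => u i x) ≤
        ∑ j, |P x (e j)| * |M j (fun i j => g i j x) - v j| := by
      refine (le_abs_self _).trans ?_
      rw [abs_mul]
      calc _ ≤ |∑ j, P x (e j) * (v j - M j (fun i j => g i j x))| * 1 :=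
            mul_le_mul_of_nonneg_left (hθbd x) (abs_nonneg _)
        _ = |∑ j, P x (e j) * (v j - M j (fun i j => g i j x))| := mul_one _
        _ ≤ ∑ j, |P x (e j) * (v j - M j (fun i j => g i j x))| := Finset.abs_sum_le_sum_abs _ _
        _ = _ := by
          refine Finset.sum_congr rfl fun j _ => ?_
          rw [abs_mul, abs_sub_comm]
    linarith
  -- the term controlled by the estimate
  have hmain : ∫ x, (∑ j, P x (e j) * M j (fun i j => g i j x)) * θ (fun i => u i x) ≤
      s * (CM * (n ^ 3 * μ.real (closedBall x₀ (2 * s)))) := by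
    have h1 : ∫ x, (∑ j, fderiv ℝ χ x (e j) * M j (fun i j => g i j x)) * θ (fun i => u i x) =
        s⁻¹ * ∫ x, (∑ j, P x (e j) * M j (fun i j => g i j x)) * θ (fun i => u i x) := by
      rw [← integral_const_mul]
      refine integral_congr_ae (Eventually.of_forall fun x => ?_)
      simp only [hχd, Finset.sum_mul, Finset.mul_sum]
      refine Finset.sum_congr rfl fun j _ => ?_
      ring
    rw [h1] at hest
    have h2 := (le_abs_self _).trans hest
    rwa [inv_mul_le_iff₀ hs] at h2
  -- the error term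
  have herr : ∫ x, ∑ j, |P x (e j)| * |M j (fun i j => g i j x) - v j| ≤
      C1 * (∑ j, ∫ x in closedBall x₀ s, |M j (fun i j => g i j x) - v j|) := by
    rw [integral_finsetSum _ fun j _ => hI4 j, Finset.mul_sum]
    refine Finset.sum_le_sum fun j _ => ?_
    have h1 : ∫ x, |P x (e j)| * |M j (fun i j => g i j x) - v j| =
        ∫ x in closedBall x₀ s, |P x (e j)| * |M j (fun i j => g i j x) - v j| := by
      symm
      apply setIntegral_eq_integral_of_forall_compl_eq_zero
      intro x hx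
      rw [hP0 x hx]
      simp
    rw [h1, ← integral_const_mul]
    have hI5 : IntegrableOn (fun x => |M j (fun i j => g i j x) - v j|) (closedBall x₀ s) := by
      refine Measure.integrableOn_of_bounded (M := CM0 + |v j|) measure_closedBall_lt_top.ne
        (((hMM j).sub aestronglyMeasurable_const).norm) ?_
      refine Eventually.of_forall fun x => ?_
      rw [Real.norm_eq_abs, abs_abs]
      exact (abs_sub _ _).trans (add_le_add (hCM0 j _) le_rfl)
    refine setIntegral_mono_on (hI4 j).integrableOn (hI5.const_mul _) measurableSet_closedBall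
      fun x _ => ?_
    refine mul_le_mul_of_nonneg_right ?_ (abs_nonneg _)
    calc |P x (e j)| ≤ ‖P x‖ * ‖(e j : EuclideanSpace ℝ (Fin n))‖ := (P x).le_opNorm _
      _ ≤ C1 * 1 := by
        refine mul_le_mul (hC1 _) ?_ (norm_nonneg _) ((norm_nonneg _).trans (hC1 0))
        simp
      _ = C1 := mul_one _
  linarith

end

end Pool.Agent.Helper33.WBV
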