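import Mathlib
import Pool.Agent.Helper33.WBVScale
set_option autoImplicit false

open MeasureTheory Set Metric Filter
open scoped Convolution ContDiff Topology

namespace Pool.Agent.Helper33.WBV

section
variable {n : ℕ}

/-- Core theorem (negated form): a continuous injective map whose weak derivative is locally
integrable and whose second distributional derivatives are dominated by a locally finite measure
cannot have a.e. vanishing Jacobian. -/
theorem core {Ω : Set (EuclideanSpace ℝ (Fin n))} (hΩ : IsOpen Ω) (hne : Ω.Nonempty)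
    {f : EuclideanSpace ℝ (Fin n) → (Fin n → ℝ)} (hf : ContinuousOn f Ω) (hinj : InjOn f Ω)
    {D : EuclideanSpace ℝ (Fin n) → Fin n → Fin n → ℝ}
    (hD : ∀ i j, LocallyIntegrableOn (fun x => D x i j) Ω volume)
    {μ : Measure (EuclideanSpace ℝ (Fin n))} (hμ : ∀ K ⊆ Ω, IsCompact K → μ K < ⊤)
    (hw1 : ∀ i j, ∀ ψ : EuclideanSpace ℝ (Fin n) → ℝ, ContDiff ℝ ∞ ψ → HasCompactSupport ψ →
      tsupport ψ ⊆ Ω → ∫ x, f x i * fderiv ℝ ψ x (e j) = - ∫ x, D x i j * ψ x)
    (hw2 : ∀ i j k, ∀ ψ : EuclideanSpace ℝ (Fin n) → ℝ, ContDiff ℝ ∞ ψ → HasCompactSupport ψ →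
      tsupport ψ ⊆ Ω → |∫ x, D x i j * fderiv ℝ ψ x (e k)| ≤ ∫ x, |ψ x| ∂μ) :
    ¬ ∀ᵐ x ∂(volume.restrict Ω), Matrix.det (Matrix.of (D x)) = 0 := by
  intro hdet
  have hν : (volume.restrict Ω : Measure (EuclideanSpace ℝ (Fin n))) ≠ 0 := by
    intro h
    have := hΩ.measure_pos volume hne
    rw [← Measure.restrict_apply_univ, h] at this
    simp at this
  obtain ⟨k, hkn, ⟨I, J, hIJ⟩, hk1⟩ := exists_ess_rank hν D hdet
  obtain ⟨j₀, hj₀⟩ := exists_not_mem_range hkn J
  -- the set where the minor does not vanish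
  set S : Set (EuclideanSpace ℝ (Fin n)) := {x | x ∈ Ω ∧ minor I J (D x) ≠ 0} with hS
  have hSpos : volume S ≠ 0 := by
    intro h
    apply hIJ
    rw [ae_restrict_iff' hΩ.measurableSet, ae_iff]
    convert h using 2
    ext x
    simp [hS]
  obtain ⟨x₁, hx₁S, hx₁⟩ := exists_mem_forall_mem_nhdsWithin_pos_measure hSpos
  obtain ⟨r', hr', hr'Ω⟩ := Metric.nhds_basis_closedBall.mem_iff.1 (hΩ.mem_nhds hx₁S.1)
  obtain ⟨r, hr, hrr⟩ : ∃ r > 0, 3 * r ≤ r' := ⟨r' / 3, by positivity, by linarith⟩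
  set B : Set (EuclideanSpace ℝ (Fin n)) := closedBall x₁ (3 * r) with hB
  have hBΩ : B ⊆ Ω := (closedBall_subset_closedBall hrr).trans hr'Ω
  have hBc : IsCompact B := isCompact_closedBall _ _
  set U : Set (EuclideanSpace ℝ (Fin n)) := ball x₁ (3 * r) with hU
  have hUB : U ⊆ B := ball_subset_closedBall
  -- localized functions
  let u : Fin n → EuclideanSpace ℝ (Fin n) → ℝ := fun i => B.indicator fun x => f x i
  let g : Fin n → Fin n → EuclideanSpace ℝ (Fin n) → ℝ := fun i j => B.indicator fun x => D x i j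
  have huB : ∀ x ∈ B, ∀ i, u i x = f x i := fun x hx i => indicator_of_mem hx _
  have hgB : ∀ x ∈ B, ∀ i j, g i j x = D x i j := fun x hx i j => indicator_of_mem hx _
  have hu : ∀ i, LocallyIntegrable (u i) volume := by
    intro i
    refine Integrable.locallyIntegrable ?_
    refine (integrable_indicator_iff hBc.measurableSet).2 ?_
    exact ContinuousOn.integrableOn_compact hBc
      ((continuous_apply i).comp_continuousOn (hf.mono hBΩ))
  have hg : ∀ i j, LocallyIntegrable (g i j) volume := by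
    intro i j
    refine Integrable.locallyIntegrable ?_
    refine (integrable_indicator_iff hBc.measurableSet).2 ?_
    exact (hD i j).integrableOn_compact_subset hBΩ hBc
  let μ' : Measure (EuclideanSpace ℝ (Fin n)) := μ.restrict B
  have : IsFiniteMeasure μ' := ⟨by
    rw [Measure.restrict_apply_univ]; exact hμ B hBΩ hBc⟩
  have hw1' : ∀ i j, ∀ ψ : EuclideanSpace ℝ (Fin n) → ℝ, ContDiff ℝ ∞ ψ → HasCompactSupport ψ →
      tsupport ψ ⊆ U → ∫ x, u i x * fderiv ℝ ψ x (e j) = - ∫ x, g i j x * ψ x := by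
    intro i j ψ hψ hψc hψU
    have h := hw1 i j ψ hψ hψc (hψU.trans (hUB.trans hBΩ))
    have h1 : ∫ x, u i x * fderiv ℝ ψ x (e j) = ∫ x, f x i * fderiv ℝ ψ x (e j) := by
      refine integral_congr_ae (Eventually.of_forall fun x => ?_)
      simp only
      by_cases hx : x ∈ B
      · rw [huB x hx]
      · have h0 : x ∉ tsupport ψ := fun h => hx (hUB (hψU h))
        have : fderiv ℝ ψ x = 0 := fderiv_of_notMem_tsupport ℝ h0
        simp [this]
    have h2 : ∫ x, g i j x * ψ x = ∫ x, D x i j * ψ x := by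
      refine integral_congr_ae (Eventually.of_forall fun x => ?_)
      simp only
      by_cases hx : x ∈ B
      · rw [hgB x hx]
      · have : ψ x = 0 := image_eq_zero_of_notMem_tsupport fun h => hx (hUB (hψU h))
        simp [this]
    rw [h1, h2, h]
  have hw2' : ∀ i j k, ∀ ψ : EuclideanSpace ℝ (Fin n) → ℝ, ContDiff ℝ ∞ ψ →
      HasCompactSupport ψ → tsupport ψ ⊆ U →
      |∫ x, g i j x * fderiv ℝ ψ x (e k)| ≤ ∫ x, |ψ x| ∂μ' := by
    intro i j k ψ hψ hψc hψU
    have h := hw2 i j k ψ hψ hψc (hψU.trans (hUB.trans hBΩ))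
    have h1 : ∫ x, g i j x * fderiv ℝ ψ x (e k) = ∫ x, D x i j * fderiv ℝ ψ x (e k) := by
      refine integral_congr_ae (Eventually.of_forall fun x => ?_)
      simp only
      by_cases hx : x ∈ B
      · rw [hgB x hx]
      · have h0 : x ∉ tsupport ψ := fun h => hx (hUB (hψU h))
        have : fderiv ℝ ψ x = 0 := fderiv_of_notMem_tsupport ℝ h0
        simp [this]
    have h2 : ∫ x, |ψ x| ∂μ' = ∫ x, |ψ x| ∂μ := by
      apply setIntegral_eq_integral_of_forall_compl_eq_zero
      intro x hx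
      have : ψ x = 0 := image_eq_zero_of_notMem_tsupport fun h => hx (hUB (hψU h))
      simp [this]
    rw [h1, h2]
    exact h
  -- the bounded part of `S`
  have hSball : 0 < volume (S ∩ ball x₁ r) := hx₁ _ (inter_mem_nhdsWithin _ (ball_mem_nhds _ hr))
  obtain ⟨N, hN⟩ : ∃ N : ℕ, volume (S ∩ ball x₁ r ∩ {x | ‖D x‖ ≤ N}) ≠ 0 := by
    by_contra hcon
    push Not at hcon
    have : volume (⋃ N : ℕ, S ∩ ball x₁ r ∩ {x | ‖D x‖ ≤ N}) = 0 := measure_iUnion_null hcon
    apply hSball.ne'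
    refine measure_mono_null ?_ this
    intro x hx
    obtain ⟨N, hN⟩ := exists_nat_ge ‖D x‖
    exact mem_iUnion.2 ⟨N, hx, hN⟩
  -- the cutoff and the vector field
  let ζ : ContDiffBump (0 : Fin n → Fin n → ℝ) := ⟨N + 1, N + 2, by positivity, by linarith⟩
  let J' : Fin (k + 1) → Fin n := Fin.cons j₀ J
  let M : Fin n → (Fin n → Fin n → ℝ) → ℝ := fun l A => ζ A * W I J' l A
  have hM : ∀ l, ContDiff ℝ ∞ (M l) := fun l => ζ.contDiff.mul (W_contDiff I J' l)
  have hMc : ∀ l, HasCompactSupport (M l) := fun l => ζ.hasCompactSupport.mul_right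
  have hNsum : ∀ A i, ∑ j, M j A * A i j = ζ A * minor (Fin.cons i I) J' A := by
    intro A i
    rw [← sum_W_mul, Finset.mul_sum]
    refine Finset.sum_congr rfl fun j _ => ?_
    simp only [M]
    ring
  -- constants
  obtain ⟨CM, hCM⟩ : ∃ C, ∀ j A, ‖fderiv ℝ (M j) A‖ ≤ C := by
    have : ∀ j, ∃ C, ∀ A, ‖fderiv ℝ (M j) A‖ ≤ C := fun j =>
      ((hMc j).fderiv ℝ).exists_bound_of_continuous ((hM j).continuous_fderiv (by simp))
    choose C hC using this
    refine ⟨∑ j, |C j|, fun j A => (hC j A).trans ((le_abs_self _).trans ?_)⟩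
    exact Finset.single_le_sum (f := fun j => |C j|) (fun _ _ => abs_nonneg _) (Finset.mem_univ j)
  obtain ⟨CM0, hCM0⟩ : ∃ C, ∀ j A, |M j A| ≤ C := by
    have : ∀ j, ∃ C, ∀ A, ‖M j A‖ ≤ C := fun j =>
      (hMc j).exists_bound_of_continuous (hM j).continuous
    choose C hC using this
    refine ⟨∑ j, |C j|, fun j A => (hC j A).trans ((le_abs_self _).trans ?_)⟩
    exact Finset.single_le_sum (f := fun j => |C j|) (fun _ _ => abs_nonneg _) (Finset.mem_univ j)
  obtain ⟨CN, hCN⟩ : ∃ C, ∀ A : Fin n → Fin n → ℝ,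
      ‖(fun i => ∑ j, M j A * A i j : Fin n → ℝ)‖ ≤ C := by
    apply HasCompactSupport.exists_bound_of_continuous
    · apply HasCompactSupport.of_support_subset_isCompact ζ.hasCompactSupport
      intro A hA
      by_contra h
      apply hA
      have h0 : ζ A = 0 := image_eq_zero_of_notMem_tsupport h
      ext i
      have h1 := hNsum A i
      rw [h0, zero_mul] at h1
      exact h1
    · refine continuous_pi fun i => continuous_finsetSum _ fun j _ => ?_
      exact (hM j).continuous.mul (continuous_apply_apply i j)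
  obtain ⟨C1, hC1⟩ : ∃ C, ∀ y, ‖fderiv ℝ (χ₀ (n := n)) y‖ ≤ C :=
    (χ₀.hasCompactSupport.fderiv ℝ).exists_bound_of_continuous
      ((χ₀.contDiff (n := ⊤)).continuous_fderiv (by simp))
  -- measurability of `M ∘ g`
  have hgM : AEStronglyMeasurable (fun x => (fun i j => g i j x : Fin n → Fin n → ℝ)) volume :=
    (aemeasurable_pi_lambda _ fun i => aemeasurable_pi_lambda _ fun j =>
      (hg i j).aestronglyMeasurable.aemeasurable).aestronglyMeasurable
  have hMM : ∀ j, AEStronglyMeasurable (fun x => M j (fun i j => g i j x)) volume := fun j =>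
    (hM j).continuous.comp_aestronglyMeasurable hgM
  have hMloc : ∀ j, LocallyIntegrable (fun x => M j (fun i j => g i j x)) volume := by
    intro j
    refine (locallyIntegrable_const CM0).mono (hMM j) (Eventually.of_forall fun x => ?_)
    exact (hCM0 j _).trans (le_abs_self _)
  -- Lebesgue points and density points
  have hleb : ∀ᵐ x, ∀ j, Tendsto (fun s => ⨍ y in closedBall x s,
      ‖M j (fun i j => g i j y) - M j (fun i j => g i j x)‖) (𝓝[>] 0) (𝓝 0) := by
    refine ae_all_iff.2 fun j => ?_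
    filter_upwards [(Besicovitch.vitaliFamily volume).ae_tendsto_average_norm_sub (hMloc j)]
      with x hx
    exact hx.comp (Besicovitch.tendsto_filterAt volume x)
  have hdens := Besicovitch.ae_tendsto_rnDeriv μ' (volume : Measure (EuclideanSpace ℝ (Fin n)))
  have hdens' := Measure.rnDeriv_lt_top μ' (volume : Measure (EuclideanSpace ℝ (Fin n)))
  obtain ⟨x₀, hx₀, hx₀leb, hx₀dens, hx₀fin⟩ : ∃ x₀ ∈ S ∩ ball x₁ r ∩ {x | ‖D x‖ ≤ N},
      (∀ j, Tendsto (fun s => ⨍ y in closedBall x₀ s,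
        ‖M j (fun i j => g i j y) - M j (fun i j => g i j x₀)‖) (𝓝[>] 0) (𝓝 0)) ∧
      Tendsto (fun r => μ' (closedBall x₀ r) / volume (closedBall x₀ r)) (𝓝[>] 0)
        (𝓝 (μ'.rnDeriv volume x₀)) ∧ μ'.rnDeriv volume x₀ < ⊤ := by
    by_contra hcon
    push Not at hcon
    apply hN
    have hall : ∀ᵐ x, (∀ j, Tendsto (fun s => ⨍ y in closedBall x s,
        ‖M j (fun i j => g i j y) - M j (fun i j => g i j x)‖) (𝓝[>] 0) (𝓝 0)) ∧
      Tendsto (fun r => μ' (closedBall x r) / volume (closedBall x r)) (𝓝[>] 0)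
        (𝓝 (μ'.rnDeriv volume x)) ∧ μ'.rnDeriv volume x < ⊤ := by
      filter_upwards [hleb, hdens, hdens'] with x h1 h2 h3 using ⟨h1, h2, h3⟩
    rw [ae_iff] at hall
    refine measure_mono_null ?_ hall
    intro x hx hx'
    exact absurd hx'.2.2 (not_lt.2 (hcon x hx hx'.1 hx'.2.1))
  obtain ⟨⟨hx₀S, hx₀ball⟩, hx₀N⟩ := hx₀
  have hx₀B : x₀ ∈ B := by
    rw [hB, mem_closedBall]
    rw [mem_ball] at hx₀ball
    linarith
  -- the limiting vector
  set v : Fin n → ℝ := fun j => M j (fun i j => g i j x₀) with hv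
  have hgx₀ : (fun i j => g i j x₀ : Fin n → Fin n → ℝ) = D x₀ := by
    ext i j; exact hgB x₀ hx₀B i j
  have hvj₀ : v j₀ ≠ 0 := by
    have h1 : v j₀ = ζ (D x₀) * W I J' j₀ (D x₀) := by rw [hv]; simp only [hgx₀, M]
    rw [h1, ζ.one_of_mem_closedBall, one_mul, W_apply_zero I J j₀ hj₀]
    · exact hx₀S.2
    · rw [mem_closedBall, dist_zero_right]
      have : ‖D x₀‖ ≤ N := hx₀N
      change ‖D x₀‖ ≤ (N : ℝ) + 1
      linarith
  have hV : (∑ j, v j • e j : EuclideanSpace ℝ (Fin n)) ≠ 0 := by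
    intro h
    apply hvj₀
    have h1 : (∑ j, v j • e j : EuclideanSpace ℝ (Fin n)) j₀ = v j₀ := by
      simp [Pi.single_apply]
    rw [← h1, h]
    rfl
  set A : ℝ := ∫ y, max (fderiv ℝ (χ₀ (n := n)) y (∑ j, v j • e j)) 0 with hA
  have hApos : 0 < A := integral_pos_part_pos hV
  -- a.e. vanishing of the minors
  have hminor : ∀ᵐ x, x ∈ B → ∀ i, ∑ j, M j (fun i j => g i j x) * g i j x = 0 := by
    have h1 : ∀ᵐ x ∂(volume.restrict Ω), ∀ i, minor (Fin.cons i I) J' (D x) = 0 :=
      ae_all_iff.2 fun i => hk1 _ _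
    rw [ae_restrict_iff' hΩ.measurableSet] at h1
    filter_upwards [h1] with x hx hxB i
    have h2 : (fun i j => g i j x : Fin n → Fin n → ℝ) = D x := by
      ext i j; exact hgB x hxB i j
    have h3 := hNsum (fun i j => g i j x) i
    rw [h3, h2, hx (hBΩ hxB) i, mul_zero]
  -- density bound
  set K : ℝ := (μ'.rnDeriv volume x₀).toReal + 1 with hK
  set vol1 : ℝ := volume.real (ball (0 : EuclideanSpace ℝ (Fin n)) 1) with hvol1
  have hvol1pos : 0 < vol1 := by
    apply ENNReal.toReal_pos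
    · exact (measure_ball_pos volume _ one_pos).ne'
    · exact measure_ball_lt_top.ne
  have hvolball : ∀ s : ℝ, 0 ≤ s → volume.real (closedBall x₀ s) = s ^ n * vol1 := by
    intro s hs
    rw [Measure.addHaar_real_closedBall _ _ hs, finrank_euclideanSpace_fin]
  have hdensEv : ∀ᶠ s in 𝓝[>] (0 : ℝ), μ'.real (closedBall x₀ (2 * s)) ≤
      K * ((2 * s) ^ n * vol1) := by
    have h1 : Tendsto (fun s : ℝ => 2 * s) (𝓝[>] 0) (𝓝[>] 0) := by
      refine tendsto_nhdsWithin_iff.2 ⟨?_, ?_⟩
      · have : Tendsto (fun s : ℝ => 2 * s) (𝓝 0) (𝓝 (2 * 0)) := tendsto_id.const_mul 2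
        rw [mul_zero] at this
        exact this.mono_left nhdsWithin_le_nhds
      · filter_upwards [self_mem_nhdsWithin] with s hs
        have : (0 : ℝ) < s := hs
        change (0 : ℝ) < 2 * s
        linarith
    have h2 := hx₀dens.comp h1
    have h3 : μ'.rnDeriv volume x₀ < ENNReal.ofReal K := by
      rw [hK]
      rw [ENNReal.lt_ofReal_iff_toReal_lt hx₀fin.ne]
      linarith
    filter_upwards [h2.eventually (gt_mem_nhds h3), self_mem_nhdsWithin] with s hs1 hs2
    have hs0 : (0 : ℝ) < s := hs2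
    have h4 : μ' (closedBall x₀ (2 * s)) / volume (closedBall x₀ (2 * s)) < ENNReal.ofReal K := hs1
    have h5 : 0 < volume (closedBall x₀ (2 * s)) := measure_closedBall_pos volume _ (by linarith)
    have h6 : volume (closedBall x₀ (2 * s)) ≠ ⊤ := measure_closedBall_lt_top.ne
    have h7 : μ' (closedBall x₀ (2 * s)) ≤ ENNReal.ofReal K * volume (closedBall x₀ (2 * s)) :=
      (ENNReal.div_le_iff h5.ne' h6).1 h4.le
    have h8 := ENNReal.toReal_mono (ENNReal.mul_ne_top ENNReal.ofReal_ne_top h6) h7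
    rw [ENNReal.toReal_mul, ENNReal.toReal_ofReal (by positivity)] at h8
    have h9 := hvolball (2 * s) (by linarith)
    rw [← h9]
    exact h8
  -- final inequality at small scales
  have hC10 : 0 ≤ C1 := (norm_nonneg _).trans (hC1 0)
  have hn0 : 0 < n := by omega
  have hCM00 : 0 ≤ CM := (norm_nonneg _).trans (hCM ⟨0, hn0⟩ 0)
  have hfinal : ∀ᶠ s in 𝓝[>] (0 : ℝ), A / 2 ≤
      C1 * vol1 * (∑ j, ⨍ y in closedBall x₀ s, ‖M j (fun i j => g i j y) - v j‖) +
      s * (CM * (n ^ 3 * (K * (2 ^ n * vol1)))) := by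
    have hsmall : ∀ᶠ s in 𝓝[>] (0 : ℝ), s < r := by
      filter_upwards [Ioo_mem_nhdsGT hr] with s hs using hs.2
    filter_upwards [hdensEv, hsmall, self_mem_nhdsWithin] with s hs1 hs2 hs3
    have hs0 : (0 : ℝ) < s := hs3
    have hballU : closedBall x₀ (2 * s) ⊆ U := by
      intro y hy
      rw [hU, mem_ball]
      rw [mem_closedBall] at hy
      rw [mem_ball] at hx₀ball
      linarith [dist_triangle y x₀ x₁]
    have hballU' : closedBall x₀ s ⊆ B :=
      ((closedBall_subset_closedBall (by linarith)).trans hballU).trans hUB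
    have hcont' : ContinuousOn (fun x i => u i x) (closedBall x₀ s) := by
      refine (hf.mono (hballU'.trans hBΩ)).congr fun x hx => ?_
      ext i; exact huB x (hballU' hx) i
    have hinj' : InjOn (fun x i => u i x) (closedBall x₀ s) := by
      intro x hx y hy hxy
      apply hinj (hBΩ (hballU' hx)) (hBΩ (hballU' hy))
      ext i
      rw [← huB x (hballU' hx) i, ← huB y (hballU' hy) i]
      exact congrFun hxy i
    have hsc := scale_inequality hu hg hw1' hw2' hs0 hM hCM hCM0 hCN hC1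
      (by filter_upwards [hminor] with x hx hx' using hx (hballU' hx')) hballU hcont' hinj' v hV
    rw [← hA] at hsc
    have hav : ∀ j, ∫ x in closedBall x₀ s, |M j (fun i j => g i j x) - v j| =
        s ^ n * vol1 * ⨍ y in closedBall x₀ s, ‖M j (fun i j => g i j y) - v j‖ := by
      intro j
      rw [setAverage_eq, hvolball s hs0.le, smul_eq_mul]
      have : s ^ n * vol1 ≠ 0 := by positivity
      field_simp
      rfl
    simp_rw [hav] at hsc
    rw [← Finset.mul_sum] at hsc
    have hsn : 0 < s ^ n := by positivity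
    have h1 : s * (CM * (n ^ 3 * μ'.real (closedBall x₀ (2 * s)))) ≤
        s * (CM * (n ^ 3 * (K * ((2 * s) ^ n * vol1)))) := by
      gcongr
    have h2 : s ^ n * (A / 2) ≤ s ^ n * (C1 * vol1 *
        (∑ j, ⨍ y in closedBall x₀ s, ‖M j (fun i j => g i j y) - v j‖) +
      s * (CM * (n ^ 3 * (K * (2 ^ n * vol1))))) := by
      refine (hsc.trans (add_le_add le_rfl h1)).trans (le_of_eq ?_)
      rw [mul_pow]
      ring
    exact le_of_mul_le_mul_left h2 hsn
  have hlim : Tendsto (fun s : ℝ => C1 * vol1 *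
      (∑ j, ⨍ y in closedBall x₀ s, ‖M j (fun i j => g i j y) - v j‖) +
      s * (CM * (n ^ 3 * (K * (2 ^ n * vol1))))) (𝓝[>] 0)
      (𝓝 (C1 * vol1 * (∑ _j : Fin n, 0) + 0 * (CM * (n ^ 3 * (K * (2 ^ n * vol1)))))) := by
    refine Tendsto.add (Tendsto.const_mul _ (tendsto_finsetSum _ fun j _ => hx₀leb j)) ?_
    refine Tendsto.mul_const _ ?_
    exact tendsto_id.mono_left nhdsWithin_le_nhds
  have := ge_of_tendsto hlim hfinal
  simp at this
  linarith

end

end Pool.Agent.Helper33.WBV
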